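import Mathlib
import Pool.Prelude.Def_F_d420a142

set_option autoImplicit false

open N62f3cee0
open scoped Gradient RealInnerProductSpace

namespace Pool.Agent.MX

abbrev E3 := EuclideanSpace ℝ (Fin 3)

/-- derivative of `‖y - a‖`. -/
theorem hasFDerivAt_norm_sub (a x : E3) (h : x ≠ a) :
    HasFDerivAt (fun y : E3 => ‖y - a‖) ((1 / ‖x - a‖) • innerSL ℝ (x - a)) x := by
  have hne : x - a ≠ 0 := sub_ne_zero.mpr h
  have hn : ‖x - a‖ ≠ 0 := norm_ne_zero_iff.mpr hne
  have h1 : HasFDerivAt (fun y : E3 => ‖y - a‖ ^ 2) (2 • (innerSL ℝ (x - a))) x := by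
    have := ((hasFDerivAt_id x).sub_const a).norm_sq
    simpa using this
  have h2 := h1.sqrt (by positivity)
  have h3 : (fun y : E3 => √(‖y - a‖ ^ 2)) = fun y => ‖y - a‖ := by
    funext y; exact Real.sqrt_sq (norm_nonneg _)
  rw [h3] at h2
  refine h2.congr_fderiv ?_
  rw [Real.sqrt_sq (norm_nonneg _)]
  ext v
  simp
  field_simp

/-- derivative of `1/‖x-a‖`. -/
theorem hasFDerivAt_inv_dist (a x : E3) (h : x ≠ a) :
    HasFDerivAt (fun y : E3 => 1 / dist y a) (-(1 / ‖x - a‖ ^ 3) • innerSL ℝ (x - a)) x := by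
  have hne : x - a ≠ 0 := sub_ne_zero.mpr h
  have hn : ‖x - a‖ ≠ 0 := norm_ne_zero_iff.mpr hne
  have h1 := (hasDerivAt_inv hn).comp_hasFDerivAt x (hasFDerivAt_norm_sub a x h)
  have h3 : (fun y : E3 => 1 / dist y a) = (fun y : ℝ => y⁻¹) ∘ (fun y => ‖y - a‖) := by
    funext y; simp [dist_eq_norm]
  rw [h3]
  refine h1.congr_fderiv ?_
  ext v
  simp
  field_simp

/-- derivative of `1/‖x-a‖^3`. -/
theorem hasFDerivAt_inv_cube (a x : E3) (h : x ≠ a) :
    HasFDerivAt (fun y : E3 => 1 / ‖y - a‖ ^ 3) (-(3 / ‖x - a‖ ^ 5) • innerSL ℝ (x - a)) x := by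
  have hne : x - a ≠ 0 := sub_ne_zero.mpr h
  have hn : ‖x - a‖ ≠ 0 := norm_ne_zero_iff.mpr hne
  have h0 : HasDerivAt (fun t : ℝ => 1 / t ^ 3) (-(3 / ‖x - a‖ ^ 4)) ‖x - a‖ := by
    have := (hasDerivAt_pow 3 (‖x - a‖)).inv (pow_ne_zero 3 hn)
    simp only [one_div]
    refine this.congr_deriv ?_
    norm_num
    field_simp
  have h1 := h0.comp_hasFDerivAt x (hasFDerivAt_norm_sub a x h)
  refine h1.congr_fderiv ?_
  ext v
  simp
  field_simp

variable {n : ℕ}

theorem notMem_range_iff {a : Fin n → E3} {x : E3} : x ∉ Set.range a ↔ ∀ j, x ≠ a j := by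
  simp [Set.mem_range, eq_comm]

/-- the gradient vector of the potential -/
noncomputable def gradV (q : Fin n → ℝ) (a : Fin n → E3) (x : E3) : E3 :=
  ∑ j, (q j / ‖x - a j‖ ^ 3) • (a j - x)

theorem hasFDerivAt_potential (q : Fin n → ℝ) (a : Fin n → E3) (x : E3) (hx : ∀ j, x ≠ a j) :
    HasFDerivAt (potential q a) (innerSL ℝ (gradV q a x)) x := by
  unfold potential gradV
  have h1 : ∀ j ∈ (Finset.univ : Finset (Fin n)), HasFDerivAt (fun y : E3 => q j / dist y (a j))
      (q j • (-(1 / ‖x - a j‖ ^ 3) • innerSL ℝ (x - a j))) x := by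
    intro j _
    have := (hasFDerivAt_inv_dist (a j) x (hx j)).const_mul (q j)
    refine this.congr_of_eventuallyEq ?_
    filter_upwards with y
    ring
  have h2 := HasFDerivAt.fun_sum h1
  refine h2.congr_fderiv ?_
  ext v
  simp only [ContinuousLinearMap.coe_sum', Finset.sum_apply, ContinuousLinearMap.smul_apply, innerSL_apply_apply,
    smul_eq_mul, sum_inner, inner_smul_left]
  refine Finset.sum_congr rfl fun j _ => ?_
  rw [← neg_sub (x) (a j), inner_neg_left]
  simp
  ring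

theorem gradient_potential (q : Fin n → ℝ) (a : Fin n → E3) (x : E3) (hx : ∀ j, x ≠ a j) :
    ∇ (potential q a) x = gradV q a x := by
  have h := hasFDerivAt_potential q a x hx
  have h' : HasGradientAt (potential q a) (gradV q a x) x := by
    rw [hasGradientAt_iff_hasFDerivAt]
    refine h.congr_fderiv ?_
    ext v
    simp
  exact h'.gradient

theorem mem_equilibria_iff (q : Fin n → ℝ) (a : Fin n → E3) (x : E3) :
    x ∈ equilibria q a ↔ (∀ j, x ≠ a j) ∧ gradV q a x = 0 := by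
  unfold equilibria
  simp only [Set.mem_setOf_eq, notMem_range_iff]
  constructor
  · rintro ⟨h1, h2⟩
    exact ⟨h1, by rw [← gradient_potential q a x h1]; exact h2⟩
  · rintro ⟨h1, h2⟩
    exact ⟨h1, by rw [gradient_potential q a x h1]; exact h2⟩

/-- the Hessian bilinear form -/
noncomputable def hessV (q : Fin n → ℝ) (a : Fin n → E3) (x v w : E3) : ℝ :=
  ∑ j, q j * (3 * (⟪x - a j, v⟫ * ⟪x - a j, w⟫) / ‖x - a j‖ ^ 5 - ⟪v, w⟫ / ‖x - a j‖ ^ 3)

theorem fderiv_potential_eventually (q : Fin n → ℝ) (a : Fin n → E3) (x : E3) (hx : ∀ j, x ≠ a j) :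
    (fun y => fderiv ℝ (potential q a) y) =ᶠ[nhds x] fun y => innerSL ℝ (gradV q a y) := by
  have : ∀ᶠ y in nhds x, ∀ j, y ≠ a j := by
    rw [Filter.eventually_all]
    intro j
    exact isOpen_ne.mem_nhds (hx j)
  filter_upwards [this] with y hy
  exact (hasFDerivAt_potential q a y hy).fderiv

theorem hasFDerivAt_gradV (q : Fin n → ℝ) (a : Fin n → E3) (x : E3) (hx : ∀ j, x ≠ a j) :
    HasFDerivAt (gradV q a) (∑ j, ((q j / ‖x - a j‖ ^ 3) • (-ContinuousLinearMap.id ℝ E3) +
      (q j • (-(3 / ‖x - a j‖ ^ 5) • innerSL ℝ (x - a j))).smulRight (a j - x))) x := by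
  unfold gradV
  refine HasFDerivAt.fun_sum fun j _ => ?_
  have h1 := (hasFDerivAt_inv_cube (a j) x (hx j)).const_mul (q j)
  have h2 : HasFDerivAt (fun y : E3 => a j - y) (-ContinuousLinearMap.id ℝ E3) x := by
    simpa using (hasFDerivAt_id x).const_sub (a j)
  have h3 := h1.fun_smul h2
  refine (h3.congr_of_eventuallyEq ?_).congr_fderiv ?_
  · filter_upwards with y
    simp [div_eq_mul_inv]
  · ext v
    simp [div_eq_mul_inv]

theorem hess_potential (q : Fin n → ℝ) (a : Fin n → E3) (x : E3) (hx : ∀ j, x ≠ a j) (v w : E3) :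
    iteratedFDeriv ℝ 2 (potential q a) x ![v, w] = hessV q a x v w := by
  rw [iteratedFDeriv_two_apply]
  simp only [Matrix.cons_val_zero, Matrix.cons_val_one]
  rw [(fderiv_potential_eventually q a x hx).fderiv_eq]
  have h1 : HasFDerivAt (fun y => innerSL ℝ (gradV q a y)) _ x :=
    (innerSL ℝ : E3 →L[ℝ] E3 →L[ℝ] ℝ).hasFDerivAt.comp x (hasFDerivAt_gradV q a x hx)
  rw [h1.fderiv]
  unfold hessV
  simp only [ContinuousLinearMap.comp_apply, ContinuousLinearMap.coe_sum', Finset.sum_apply,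
    ContinuousLinearMap.add_apply, ContinuousLinearMap.smul_apply, ContinuousLinearMap.neg_apply,
    ContinuousLinearMap.smulRight_apply, ContinuousLinearMap.id_apply, innerSL_apply_apply, smul_eq_mul]
  rw [innerSL_apply_apply, sum_inner]
  refine Finset.sum_congr rfl fun j _ => ?_
  rw [inner_add_left, inner_smul_left, inner_smul_left, inner_neg_left, ← neg_sub x (a j), inner_neg_left]
  simp
  ring

theorem nondeg_iff (q : Fin n → ℝ) (a : Fin n → E3) (x : E3) (hx : ∀ j, x ≠ a j) :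
    HasNondegenerateHessianAt (potential q a) x ↔ ∀ v ≠ 0, ∃ w, hessV q a x v w ≠ 0 := by
  unfold HasNondegenerateHessianAt
  simp only [hess_potential q a x hx]

end Pool.Agent.MX
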