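import Mathlib

set_option autoImplicit false

namespace Pool.Agent.MX

theorem inv_sq_strict_pos {x y l : ℝ} (hx : 0 < x) (hy : 0 < y) (hxy : x ≠ y) (h0 : 0 < l) (h1 : l < 1) :
    1 / (l * x + (1 - l) * y) ^ 2 < l * (1 / x ^ 2) + (1 - l) * (1 / y ^ 2) := by
  have h := (strictConvexOn_zpow (m := -2) (by norm_num) (by norm_num)).2 (Set.mem_Ioi.mpr hx)
    (Set.mem_Ioi.mpr hy) hxy h0 (by linarith : (0:ℝ) < 1 - l) (by ring)
  simp only [smul_eq_mul] at h
  have e : ∀ z : ℝ, z ^ (-2 : ℤ) = 1 / z ^ 2 := by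
    intro z; rw [zpow_neg]; simp
  rw [e, e, e] at h
  exact h

theorem inv_sq_strict {x y l : ℝ} (h : 0 < x * y) (hxy : x ≠ y) (h0 : 0 < l) (h1 : l < 1) :
    1 / (l * x + (1 - l) * y) ^ 2 < l * (1 / x ^ 2) + (1 - l) * (1 / y ^ 2) := by
  rcases pos_and_pos_or_neg_and_neg_of_mul_pos h with ⟨hx, hy⟩ | ⟨hx, hy⟩
  · exact inv_sq_strict_pos hx hy hxy h0 h1
  · have := inv_sq_strict_pos (x := -x) (y := -y) (by linarith) (by linarith)
      (fun hh => hxy (by linarith)) h0 h1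
    have e1 : (l * (-x) + (1 - l) * (-y)) ^ 2 = (l * x + (1 - l) * y) ^ 2 := by ring
    rw [e1, neg_sq, neg_sq] at this
    exact this

/-- A field `∑ c_j/(t_j - s)^2` with two of the coefficients of the same sign vanishes at most twice on an interval. -/
theorem no_three {ck ci cj tk ti tj s1 s2 s3 : ℝ} (hc : 0 < ci * cj) (hik : ti ≠ tk) (hjk : tj ≠ tk)
    (h12 : s1 < s2) (h23 : s2 < s3)
    (hk : 0 < (tk - s1) * (tk - s3)) (hi : 0 < (ti - s1) * (ti - s3)) (hj : 0 < (tj - s1) * (tj - s3))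
    (e1 : ck / (tk - s1) ^ 2 + ci / (ti - s1) ^ 2 + cj / (tj - s1) ^ 2 = 0)
    (e2 : ck / (tk - s2) ^ 2 + ci / (ti - s2) ^ 2 + cj / (tj - s2) ^ 2 = 0)
    (e3 : ck / (tk - s3) ^ 2 + ci / (ti - s3) ^ 2 + cj / (tj - s3) ^ 2 = 0) : False := by
  -- nonvanishing
  have nz : ∀ t : ℝ, 0 < (t - s1) * (t - s3) → t - s1 ≠ 0 ∧ t - s2 ≠ 0 ∧ t - s3 ≠ 0 := by
    intro t ht
    rcases pos_and_pos_or_neg_and_neg_of_mul_pos ht with ⟨h1, h3⟩ | ⟨h1, h3⟩
    · exact ⟨by linarith, by intro h; linarith, by linarith⟩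
    · exact ⟨by linarith, by intro h; linarith, by linarith⟩
  obtain ⟨k1, k2, k3⟩ := nz tk hk
  obtain ⟨i1, i2, i3⟩ := nz ti hi
  obtain ⟨j1, j2, j3⟩ := nz tj hj
  set l : ℝ := ((tk - s1) / (tk - s2)) * ((s3 - s2) / (s3 - s1)) with hl
  have hs31 : 0 < s3 - s1 := by linarith
  have hl1 : 1 - l = ((tk - s3) / (tk - s2)) * ((s2 - s1) / (s3 - s1)) := by
    rw [hl]; field_simp; ring
  have hr1 : 0 < (tk - s1) / (tk - s2) := by
    rcases pos_and_pos_or_neg_and_neg_of_mul_pos hk with ⟨h1, h3⟩ | ⟨h1, h3⟩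
    · exact div_pos h1 (by linarith)
    · exact div_pos_of_neg_of_neg h1 (by linarith)
  have hr3 : 0 < (tk - s3) / (tk - s2) := by
    rcases pos_and_pos_or_neg_and_neg_of_mul_pos hk with ⟨h1, h3⟩ | ⟨h1, h3⟩
    · exact div_pos h3 (by linarith)
    · exact div_pos_of_neg_of_neg h3 (by linarith)
  have hl0 : 0 < l := by
    rw [hl]; exact mul_pos hr1 (div_pos (by linarith) hs31)
  have hl1' : 0 < 1 - l := by
    rw [hl1]; exact mul_pos hr3 (div_pos (by linarith) hs31)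
  -- the Moebius coordinates
  have mid : ∀ t : ℝ, (t - s2) / (tk - s2) = l * ((t - s1) / (tk - s1)) + (1 - l) * ((t - s3) / (tk - s3)) := by
    intro t
    rw [hl1, hl]
    field_simp
    ring
  have same : ∀ t : ℝ, 0 < (t - s1) * (t - s3) → 0 < ((t - s1) / (tk - s1)) * ((t - s3) / (tk - s3)) := by
    intro t ht
    have : ((t - s1) / (tk - s1)) * ((t - s3) / (tk - s3)) = ((t - s1) * (t - s3)) / ((tk - s1) * (tk - s3)) := by
      field_simp
    rw [this]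
    exact div_pos ht hk
  have ne : ∀ t : ℝ, t ≠ tk → (t - s1) / (tk - s1) ≠ (t - s3) / (tk - s3) := by
    intro t ht h
    rw [div_eq_div_iff k1 k3] at h
    have : (t - tk) * (s3 - s1) = 0 := by linarith
    rcases mul_eq_zero.mp this with h' | h'
    · exact ht (by linarith)
    · linarith
  have fi := inv_sq_strict (same ti hi) (ne ti hik) hl0 (by linarith : l < 1)
  have fj := inv_sq_strict (same tj hj) (ne tj hjk) hl0 (by linarith : l < 1)
  rw [← mid ti] at fi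
  rw [← mid tj] at fj
  have r : ∀ s : ℝ, tk - s ≠ 0 → ti - s ≠ 0 → tj - s ≠ 0 →
      ck / (tk - s) ^ 2 + ci / (ti - s) ^ 2 + cj / (tj - s) ^ 2 = 0 →
      ci * (1 / ((ti - s) / (tk - s)) ^ 2) + cj * (1 / ((tj - s) / (tk - s)) ^ 2) = -ck := by
    intro s a b c h
    have : ck / (tk - s) ^ 2 + ci / (ti - s) ^ 2 + cj / (tj - s) ^ 2 =
      (1 / (tk - s) ^ 2) * (ck + (ci * (1 / ((ti - s) / (tk - s)) ^ 2) + cj * (1 / ((tj - s) / (tk - s)) ^ 2))) := by
      field_simp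
      ring
    rw [this] at h
    rcases mul_eq_zero.mp h with h' | h'
    · exact absurd h' (by positivity)
    · linarith
  have r1 := r s1 k1 i1 j1 e1
  have r2 := r s2 k2 i2 j2 e2
  have r3 := r s3 k3 i3 j3 e3
  set A1 := 1 / ((ti - s1) / (tk - s1)) ^ 2
  set A2 := 1 / ((ti - s2) / (tk - s2)) ^ 2
  set A3 := 1 / ((ti - s3) / (tk - s3)) ^ 2
  set B1 := 1 / ((tj - s1) / (tk - s1)) ^ 2
  set B2 := 1 / ((tj - s2) / (tk - s2)) ^ 2
  set B3 := 1 / ((tj - s3) / (tk - s3)) ^ 2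
  have comb : l * (ci * A1 + cj * B1) + (1 - l) * (ci * A3 + cj * B3) = -ck := by
    rw [r1, r3]; ring
  rcases pos_and_pos_or_neg_and_neg_of_mul_pos hc with ⟨ci0, cj0⟩ | ⟨ci0, cj0⟩
  · have g1 := mul_lt_mul_of_pos_left fi ci0
    have g2 := mul_lt_mul_of_pos_left fj cj0
    have : ci * (l * A1 + (1 - l) * A3) + cj * (l * B1 + (1 - l) * B3) = -ck := by
      rw [← comb]; ring
    linarith
  · have g1 := mul_lt_mul_of_neg_left fi ci0
    have g2 := mul_lt_mul_of_neg_left fj cj0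
    have : ci * (l * A1 + (1 - l) * A3) + cj * (l * B1 + (1 - l) * B3) = -ck := by
      rw [← comb]; ring
    linarith

end Pool.Agent.MX
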