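import Mathlib
import Pool.Agent.Lib_helper34.MX.Line

set_option autoImplicit false

namespace Pool.Agent.MX

theorem div_sq_lt {c a b : ℝ} (hc : 0 < c) (ha : 0 < a) (hab : a < b) : c / b ^ 2 < c / a ^ 2 := by
  apply div_lt_div_of_pos_left hc (by positivity)
  nlinarith

/-- an interval avoiding a point: the two differences have the same sign -/
theorem no_three' {c0 c1 c2 t0 t1 t2 s1 s2 s3 : ℝ} (h0 : c0 ≠ 0) (h1 : c1 ≠ 0) (h2 : c2 ≠ 0)
    (h01 : t0 ≠ t1) (h02 : t0 ≠ t2) (h12' : t1 ≠ t2)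
    (h12 : s1 < s2) (h23 : s2 < s3)
    (k0 : 0 < (t0 - s1) * (t0 - s3)) (k1 : 0 < (t1 - s1) * (t1 - s3)) (k2 : 0 < (t2 - s1) * (t2 - s3))
    (e1 : c0 / (t0 - s1) ^ 2 + c1 / (t1 - s1) ^ 2 + c2 / (t2 - s1) ^ 2 = 0)
    (e2 : c0 / (t0 - s2) ^ 2 + c1 / (t1 - s2) ^ 2 + c2 / (t2 - s2) ^ 2 = 0)
    (e3 : c0 / (t0 - s3) ^ 2 + c1 / (t1 - s3) ^ 2 + c2 / (t2 - s3) ^ 2 = 0) : False := by
  have : 0 < c0 * c1 ∨ 0 < c0 * c2 ∨ 0 < c1 * c2 := by
    rcases lt_or_gt_of_ne h0 with a | a <;> rcases lt_or_gt_of_ne h1 with b | b <;>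
      rcases lt_or_gt_of_ne h2 with d | d
    · left; exact mul_pos_of_neg_of_neg a b
    · left; exact mul_pos_of_neg_of_neg a b
    · right; left; exact mul_pos_of_neg_of_neg a d
    · right; right; exact mul_pos b d
    · right; right; exact mul_pos_of_neg_of_neg b d
    · right; left; exact mul_pos a d
    · left; exact mul_pos a b
    · left; exact mul_pos a b
  rcases this with h | h | h
  · exact no_three (ck := c2) (tk := t2) (ti := t0) (tj := t1) h h02 h12' h12 h23 k2 k0 k1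
      (by linarith) (by linarith) (by linarith)
  · exact no_three (ck := c1) (tk := t1) (ti := t0) (tj := t2) h h01 h12'.symm h12 h23 k1 k0 k2
      (by linarith) (by linarith) (by linarith)
  · exact no_three (ck := c0) (tk := t0) (ti := t1) (tj := t2) h h01.symm h02.symm h12 h23 k0 k1 k2
      (by linarith) (by linarith) (by linarith)

theorem encard_le_two_of {S : Set ℝ} (h : ∀ x ∈ S, ∀ y ∈ S, ∀ z ∈ S, x < y → y < z → False) :
    S.encard ≤ 2 := by
  by_contra hc
  push Not at hc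
  have h3 : 3 ≤ S.encard := by
    have := Order.add_one_le_of_lt hc
    calc (3 : ℕ∞) = 2 + 1 := by norm_num
      _ ≤ _ := this
  obtain ⟨T, hT, hT3⟩ := Set.exists_subset_encard_eq h3
  obtain ⟨x, y, z, hxy, hxz, hyz, rfl⟩ := Set.encard_eq_three.mp hT3
  have mx : x ∈ S := hT (by simp)
  have my : y ∈ S := hT (by simp)
  have mz : z ∈ S := hT (by simp)
  rcases lt_or_gt_of_ne hxy with a | a <;> rcases lt_or_gt_of_ne hxz with b | b <;>
    rcases lt_or_gt_of_ne hyz with c | c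
  · exact h x mx y my z mz a c
  · exact h x mx z mz y my b c
  · linarith
  · exact h z mz x mx y my b a
  · exact h y my x mx z mz a b
  · linarith
  · exact h y my z mz x mx c b
  · exact h z mz y my x mx c a

/-- the axial equilibria -/
def lineZ (q t : Fin 3 → ℝ) : Set ℝ :=
  {s | (∀ j, s ≠ t j) ∧ ∑ j, q j * (t j - s) / |t j - s| ^ 3 = 0}

theorem term_pos {c x : ℝ} (hx : 0 < x) : c * x / |x| ^ 3 = c / x ^ 2 := by
  rw [abs_of_pos hx]; field_simp

theorem term_neg {c x : ℝ} (hx : x < 0) : c * x / |x| ^ 3 = -c / x ^ 2 := by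
  rw [abs_of_neg hx]
  have : x ≠ 0 := hx.ne
  have h3 : (-x) ^ 3 = -(x ^ 3) := by ring
  rw [h3]; field_simp

theorem line_count_pos (q t : Fin 3 → ℝ) (h0 : q 0 ≠ 0) (h1 : 0 < q 1) (h2 : q 2 ≠ 0)
    (t01 : t 0 < t 1) (t12 : t 1 < t 2) : (lineZ q t).encard ≤ 4 := by
  set Z0 : Set ℝ := {s | s < t 0 ∧ q 0 / (t 0 - s) ^ 2 + q 1 / (t 1 - s) ^ 2 + q 2 / (t 2 - s) ^ 2 = 0} with hZ0
  set Z1 : Set ℝ := {s | (t 0 < s ∧ s < t 1) ∧
    -q 0 / (t 0 - s) ^ 2 + q 1 / (t 1 - s) ^ 2 + q 2 / (t 2 - s) ^ 2 = 0} with hZ1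
  set Z2 : Set ℝ := {s | (t 1 < s ∧ s < t 2) ∧
    -q 0 / (t 0 - s) ^ 2 + -q 1 / (t 1 - s) ^ 2 + q 2 / (t 2 - s) ^ 2 = 0} with hZ2
  set Z3 : Set ℝ := {s | t 2 < s ∧
    -q 0 / (t 0 - s) ^ 2 + -q 1 / (t 1 - s) ^ 2 + -q 2 / (t 2 - s) ^ 2 = 0} with hZ3
  have hsub : lineZ q t ⊆ (Z0 ∪ Z1) ∪ (Z2 ∪ Z3) := by
    rintro s ⟨hs, he⟩
    rw [Fin.sum_univ_three] at he
    have n0 := hs 0
    have n1 := hs 1
    have n2 := hs 2
    rcases lt_or_gt_of_ne n0 with a | a
    · left; left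
      refine ⟨a, ?_⟩
      rw [term_pos (by linarith), term_pos (by linarith), term_pos (by linarith)] at he
      exact he
    · rcases lt_or_gt_of_ne n1 with b | b
      · left; right
        refine ⟨⟨a, b⟩, ?_⟩
        rw [term_neg (by linarith), term_pos (by linarith), term_pos (by linarith)] at he
        exact he
      · rcases lt_or_gt_of_ne n2 with c | c
        · right; left
          refine ⟨⟨b, c⟩, ?_⟩
          rw [term_neg (by linarith), term_neg (by linarith), term_pos (by linarith)] at he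
          exact he
        · right; right
          refine ⟨c, ?_⟩
          rw [term_neg (by linarith), term_neg (by linarith), term_neg (by linarith)] at he
          exact he
  have e0 : Z0.encard ≤ 2 := by
    apply encard_le_two_of
    rintro x ⟨hx, ex⟩ y ⟨hy, ey⟩ z ⟨hz, ez⟩ hxy hyz
    exact no_three' h0 h1.ne' h2 t01.ne (t01.trans t12).ne t12.ne hxy hyz
      (mul_pos (by linarith) (by linarith)) (mul_pos (by linarith) (by linarith))
      (mul_pos (by linarith) (by linarith)) ex ey ez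
  have e1 : Z1.encard ≤ 2 := by
    apply encard_le_two_of
    rintro x ⟨⟨hx, hx'⟩, ex⟩ y ⟨⟨hy, hy'⟩, ey⟩ z ⟨⟨hz, hz'⟩, ez⟩ hxy hyz
    exact no_three' (neg_ne_zero.mpr h0) h1.ne' h2 t01.ne (t01.trans t12).ne t12.ne hxy hyz
      (mul_pos_of_neg_of_neg (by linarith) (by linarith)) (mul_pos (by linarith) (by linarith))
      (mul_pos (by linarith) (by linarith)) ex ey ez
  have e2 : Z2.encard ≤ 2 := by
    apply encard_le_two_of
    rintro x ⟨⟨hx, hx'⟩, ex⟩ y ⟨⟨hy, hy'⟩, ey⟩ z ⟨⟨hz, hz'⟩, ez⟩ hxy hyz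
    exact no_three' (neg_ne_zero.mpr h0) (neg_ne_zero.mpr h1.ne') h2 t01.ne (t01.trans t12).ne t12.ne hxy hyz
      (mul_pos_of_neg_of_neg (by linarith) (by linarith)) (mul_pos_of_neg_of_neg (by linarith) (by linarith))
      (mul_pos (by linarith) (by linarith)) ex ey ez
  have e3 : Z3.encard ≤ 2 := by
    apply encard_le_two_of
    rintro x ⟨hx, ex⟩ y ⟨hy, ey⟩ z ⟨hz, ez⟩ hxy hyz
    exact no_three' (neg_ne_zero.mpr h0) (neg_ne_zero.mpr h1.ne') (neg_ne_zero.mpr h2)
      t01.ne (t01.trans t12).ne t12.ne hxy hyz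
      (mul_pos_of_neg_of_neg (by linarith) (by linarith)) (mul_pos_of_neg_of_neg (by linarith) (by linarith))
      (mul_pos_of_neg_of_neg (by linarith) (by linarith)) ex ey ez
  have hle : (lineZ q t).encard ≤ (Z0.encard + Z1.encard) + (Z2.encard + Z3.encard) :=
    (Set.encard_le_encard hsub).trans ((Set.encard_union_le _ _).trans
      (add_le_add (Set.encard_union_le _ _) (Set.encard_union_le _ _)))
  have fin4 : ∀ a b c d : ℕ∞, a ≤ 2 → b ≤ 2 → c ≤ 2 → d ≤ 2 → ((a = 0 ∧ d = 0) ∨ (c = 0 ∧ (a = 0 ∨ d = 0)) ∨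
      (b = 0 ∧ (a = 0 ∨ d = 0)) ∨ ((b = 0 ∨ d = 0) ∧ (a = 0 ∨ c = 0))) → (a + b) + (c + d) ≤ 4 := by
    intro a b c d ha hb hc hd h
    have two : ∀ x y : ℕ∞, x ≤ 2 → y ≤ 2 → x + y ≤ 4 := by
      intro x y hx hy
      calc x + y ≤ 2 + 2 := add_le_add hx hy
        _ = 4 := by norm_num
    rcases h with ⟨rfl, rfl⟩ | ⟨rfl, rfl | rfl⟩ | ⟨rfl, rfl | rfl⟩ | ⟨rfl | rfl, rfl | rfl⟩
    · simpa using two b c hb hc
    · simpa using two b d hb hd
    · simpa using two a b ha hb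
    · simpa using two c d hc hd
    · simpa using two a c ha hc
    · simpa using two c d hc hd
    · simpa using two a d ha hd
    · simpa using two b c hb hc
    · simpa using two a b ha hb
  refine hle.trans (fin4 _ _ _ _ e0 e1 e2 e3 ?_)
  simp only [Set.encard_eq_zero]
  -- comparison facts
  have P : ∀ x : ℝ, x ≠ 0 → 0 < x ^ 2 := fun x hx => by positivity
  have zero0 : 0 < q 0 → 0 < q 2 → Z0 = ∅ := by
    intro a c
    ext s
    simp only [Set.mem_empty_iff_false, iff_false]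
    rintro ⟨hs, es⟩
    have A0 : 0 < q 0 / (t 0 - s) ^ 2 := div_pos a (P _ (by linarith : (0:ℝ) < t 0 - s).ne')
    have A1 : 0 < q 1 / (t 1 - s) ^ 2 := div_pos h1 (P _ (by linarith : (0:ℝ) < t 1 - s).ne')
    have A2 : 0 < q 2 / (t 2 - s) ^ 2 := div_pos c (P _ (by linarith : (0:ℝ) < t 2 - s).ne')
    linarith
  have zero3 : 0 < q 0 → 0 < q 2 → Z3 = ∅ := by
    intro a c
    ext s
    simp only [Set.mem_empty_iff_false, iff_false]
    rintro ⟨hs, es⟩
    have A0 : 0 < q 0 / (t 0 - s) ^ 2 := div_pos a (P _ (by linarith : t 0 - s < 0).ne)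
    have A1 : 0 < q 1 / (t 1 - s) ^ 2 := div_pos h1 (P _ (by linarith : t 1 - s < 0).ne)
    have A2 : 0 < q 2 / (t 2 - s) ^ 2 := div_pos c (P _ (by linarith : t 2 - s < 0).ne)
    rw [neg_div, neg_div, neg_div] at es
    linarith
  have lt_of_div : ∀ {x y c : ℝ}, 0 < c → x / c < y / c → x < y := by
    intro x y c hc h
    exact (div_lt_div_iff_of_pos_right hc).mp h
  rcases lt_or_gt_of_ne h0 with a | a <;> rcases lt_or_gt_of_ne h2 with c | c
  · -- (-,+,-)
    right; right; right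
    constructor
    · by_contra hcon
      push Not at hcon
      obtain ⟨⟨s, ⟨hs, hs'⟩, es⟩, ⟨r, hr, er⟩⟩ := hcon
      have A0 : 0 < -q 0 / (t 0 - s) ^ 2 := div_pos (by linarith) (P _ (by linarith : t 0 - s < 0).ne)
      have A2 : -q 2 / (t 2 - s) ^ 2 < -q 2 / (t 1 - s) ^ 2 :=
        div_sq_lt (by linarith) (by linarith) (by linarith)
      have B0 : 0 < -q 0 / (t 0 - r) ^ 2 := div_pos (by linarith) (P _ (by linarith : t 0 - r < 0).ne)
      have B2 : -q 2 / (r - t 1) ^ 2 < -q 2 / (r - t 2) ^ 2 :=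
        div_sq_lt (by linarith) (by linarith) (by linarith)
      have s1 : (r - t 1) ^ 2 = (t 1 - r) ^ 2 := by ring
      have s2 : (r - t 2) ^ 2 = (t 2 - r) ^ 2 := by ring
      rw [s1, s2] at B2
      have C1 : q 1 / (t 1 - s) ^ 2 < -q 2 / (t 1 - s) ^ 2 := by
        rw [neg_div] at A0 A2
        rw [neg_div] at A2 es
        rw [neg_div]
        linarith
      have C2 : -q 2 / (t 1 - r) ^ 2 < q 1 / (t 1 - r) ^ 2 := by
        simp only [neg_div] at B0 B2 er ⊢
        linarith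
      have D1 := lt_of_div (P _ (by linarith : (0:ℝ) < t 1 - s).ne') C1
      have D2 := lt_of_div (P _ (by linarith : t 1 - r < 0).ne) C2
      linarith
    · by_contra hcon
      push Not at hcon
      obtain ⟨⟨s, hs, es⟩, ⟨r, ⟨hr, hr'⟩, er⟩⟩ := hcon
      -- s < t0, t1 < r < t2
      have A2 : 0 < -q 2 / (t 2 - s) ^ 2 := div_pos (by linarith) (P _ (by linarith : (0:ℝ) < t 2 - s).ne')
      have A0 : -q 0 / (t 1 - s) ^ 2 < -q 0 / (t 0 - s) ^ 2 :=
        div_sq_lt (by linarith) (by linarith) (by linarith)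
      have B2 : 0 < -q 2 / (t 2 - r) ^ 2 := div_pos (by linarith) (P _ (by linarith : (0:ℝ) < t 2 - r).ne')
      have B1 : -q 0 / (r - t 0) ^ 2 < -q 0 / (r - t 1) ^ 2 :=
        div_sq_lt (by linarith) (by linarith) (by linarith)
      have s1 : (r - t 1) ^ 2 = (t 1 - r) ^ 2 := by ring
      have s0 : (r - t 0) ^ 2 = (t 0 - r) ^ 2 := by ring
      rw [s1, s0] at B1
      have C1 : -q 0 / (t 1 - s) ^ 2 < q 1 / (t 1 - s) ^ 2 := by
        simp only [neg_div] at *
        linarith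
      have C2 : q 1 / (t 1 - r) ^ 2 < -q 0 / (t 1 - r) ^ 2 := by
        simp only [neg_div] at *
        linarith
      have D1 := lt_of_div (P _ (by linarith : (0:ℝ) < t 1 - s).ne') C1
      have D2 := lt_of_div (P _ (by linarith : t 1 - r < 0).ne) C2
      linarith
  · -- (-,+,+)
    right; right; left
    constructor
    · ext s
      simp only [Set.mem_empty_iff_false, iff_false]
      rintro ⟨⟨hs, hs'⟩, es⟩
      have A0 : 0 < -q 0 / (t 0 - s) ^ 2 := div_pos (by linarith) (P _ (by linarith : t 0 - s < 0).ne)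
      have A1 : 0 < q 1 / (t 1 - s) ^ 2 := div_pos h1 (P _ (by linarith : (0:ℝ) < t 1 - s).ne')
      have A2 : 0 < q 2 / (t 2 - s) ^ 2 := div_pos c (P _ (by linarith : (0:ℝ) < t 2 - s).ne')
      linarith
    · by_contra hcon
      push Not at hcon
      obtain ⟨⟨s, hs, es⟩, ⟨r, hr, er⟩⟩ := hcon
      have A1 : q 1 / (t 1 - s) ^ 2 < q 1 / (t 0 - s) ^ 2 :=
        div_sq_lt (by linarith) (by linarith) (by linarith)
      have A2 : q 2 / (t 2 - s) ^ 2 < q 2 / (t 0 - s) ^ 2 :=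
        div_sq_lt (by linarith) (by linarith) (by linarith)
      have B1 : q 1 / (r - t 0) ^ 2 < q 1 / (r - t 1) ^ 2 :=
        div_sq_lt (by linarith) (by linarith) (by linarith)
      have B2 : q 2 / (r - t 0) ^ 2 < q 2 / (r - t 2) ^ 2 :=
        div_sq_lt (by linarith) (by linarith) (by linarith)
      have s1 : (r - t 1) ^ 2 = (t 1 - r) ^ 2 := by ring
      have s2 : (r - t 2) ^ 2 = (t 2 - r) ^ 2 := by ring
      have s0 : (r - t 0) ^ 2 = (t 0 - r) ^ 2 := by ring
      rw [s1, s0] at B1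
      rw [s2, s0] at B2
      have C1 : -q 0 / (t 0 - s) ^ 2 < (q 1 + q 2) / (t 0 - s) ^ 2 := by
        rw [neg_div, add_div]; linarith
      have C2 : (q 1 + q 2) / (t 0 - r) ^ 2 < -q 0 / (t 0 - r) ^ 2 := by
        simp only [neg_div, add_div] at *
        linarith
      have D1 := lt_of_div (P _ (by linarith : (0:ℝ) < t 0 - s).ne') C1
      have D2 := lt_of_div (P _ (by linarith : t 0 - r < 0).ne) C2
      linarith
  · -- (+,+,-)
    right; left
    constructor
    · ext s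
      simp only [Set.mem_empty_iff_false, iff_false]
      rintro ⟨⟨hs, hs'⟩, es⟩
      have A0 : 0 < q 0 / (t 0 - s) ^ 2 := div_pos (by linarith) (P _ (by linarith : t 0 - s < 0).ne)
      have A1 : 0 < q 1 / (t 1 - s) ^ 2 := div_pos h1 (P _ (by linarith : t 1 - s < 0).ne)
      have A2 : 0 < -q 2 / (t 2 - s) ^ 2 := div_pos (by linarith) (P _ (by linarith : (0:ℝ) < t 2 - s).ne')
      simp only [neg_div] at *
      linarith
    · by_contra hcon
      push Not at hcon
      obtain ⟨⟨s, hs, es⟩, ⟨r, hr, er⟩⟩ := hcon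
      have A0 : q 0 / (t 2 - s) ^ 2 < q 0 / (t 0 - s) ^ 2 :=
        div_sq_lt (by linarith) (by linarith) (by linarith)
      have A1 : q 1 / (t 2 - s) ^ 2 < q 1 / (t 1 - s) ^ 2 :=
        div_sq_lt (by linarith) (by linarith) (by linarith)
      have B0 : q 0 / (r - t 0) ^ 2 < q 0 / (r - t 2) ^ 2 :=
        div_sq_lt (by linarith) (by linarith) (by linarith)
      have B1 : q 1 / (r - t 1) ^ 2 < q 1 / (r - t 2) ^ 2 :=
        div_sq_lt (by linarith) (by linarith) (by linarith)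
      have s1 : (r - t 1) ^ 2 = (t 1 - r) ^ 2 := by ring
      have s2 : (r - t 2) ^ 2 = (t 2 - r) ^ 2 := by ring
      have s0 : (r - t 0) ^ 2 = (t 0 - r) ^ 2 := by ring
      rw [s2, s0] at B0
      rw [s2, s1] at B1
      have C1 : (q 0 + q 1) / (t 2 - s) ^ 2 < -q 2 / (t 2 - s) ^ 2 := by
        simp only [neg_div, add_div] at *
        linarith
      have C2 : -q 2 / (t 2 - r) ^ 2 < (q 0 + q 1) / (t 2 - r) ^ 2 := by
        simp only [neg_div, add_div] at *
        linarith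
      have D1 := lt_of_div (P _ (by linarith : (0:ℝ) < t 2 - s).ne') C1
      have D2 := lt_of_div (P _ (by linarith : t 2 - r < 0).ne) C2
      linarith
  · -- (+,+,+)
    left
    exact ⟨zero0 a c, zero3 a c⟩

theorem lineZ_neg (q t : Fin 3 → ℝ) : lineZ (fun j => -q j) t = lineZ q t := by
  ext s
  unfold lineZ
  simp only [Set.mem_setOf_eq]
  refine and_congr_right fun _ => ?_
  have : ∑ j, -q j * (t j - s) / |t j - s| ^ 3 = -∑ j, q j * (t j - s) / |t j - s| ^ 3 := by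
    rw [← Finset.sum_neg_distrib]
    refine Finset.sum_congr rfl fun j _ => ?_
    ring
  rw [this, neg_eq_zero]

theorem line_count_sorted (q t : Fin 3 → ℝ) (hq : ∀ j, q j ≠ 0)
    (t01 : t 0 < t 1) (t12 : t 1 < t 2) : (lineZ q t).encard ≤ 4 := by
  rcases lt_or_gt_of_ne (hq 1) with h | h
  · rw [← lineZ_neg]
    exact line_count_pos _ t (neg_ne_zero.mpr (hq 0)) (by simpa using h) (neg_ne_zero.mpr (hq 2)) t01 t12
  · exact line_count_pos q t (hq 0) h (hq 2) t01 t12

theorem lineZ_perm (q t : Fin 3 → ℝ) (σ : Equiv.Perm (Fin 3)) :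
    lineZ (fun j => q (σ j)) (fun j => t (σ j)) = lineZ q t := by
  ext s
  unfold lineZ
  simp only [Set.mem_setOf_eq]
  have e1 : (∀ j, s ≠ t (σ j)) ↔ ∀ j, s ≠ t j := by
    constructor
    · intro h j
      have := h (σ.symm j)
      simpa using this
    · intro h j; exact h _
  have e2 : ∑ j, q (σ j) * (t (σ j) - s) / |t (σ j) - s| ^ 3 = ∑ j, q j * (t j - s) / |t j - s| ^ 3 :=
    Equiv.sum_comp σ (fun j => q j * (t j - s) / |t j - s| ^ 3)
  rw [e1, e2]

theorem line_count (q t : Fin 3 → ℝ) (hq : ∀ j, q j ≠ 0) (ht : Function.Injective t) :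
    (lineZ q t).encard ≤ 4 := by
  set σ := Tuple.sort t
  have hm : Monotone (t ∘ σ) := Tuple.monotone_sort t
  have hs : StrictMono (t ∘ σ) := hm.strictMono_of_injective (ht.comp σ.injective)
  rw [← lineZ_perm q t σ]
  exact line_count_sorted _ _ (fun j => hq _) (hs (by decide : (0 : Fin 3) < 1)) (hs (by decide : (1 : Fin 3) < 2))

end Pool.Agent.MX
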