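import Mathlib
import Pool.Prelude.Def_F_d420a142
import Pool.Agent.Lib_helper34.MX.Calc
import Pool.Agent.Lib_helper34.MX.LineCount

set_option autoImplicit false

open N62f3cee0
open scoped Gradient RealInnerProductSpace

namespace Pool.Agent.MX

theorem exists_orth (u h : E3) : ∃ v : E3, v ≠ 0 ∧ ⟪v, u⟫ = 0 ∧ ⟪v, h⟫ = 0 := by
  set S : Submodule ℝ E3 := Submodule.span ℝ (({u, h} : Finset E3) : Set E3) with hS
  have h1 : Module.finrank ℝ S ≤ 2 := by
    refine (finrank_span_finset_le_card _).trans ?_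
    exact Finset.card_le_two
  have h2 : Module.finrank ℝ S + Module.finrank ℝ Sᗮ = 3 := by
    rw [Submodule.finrank_add_finrank_orthogonal]
    simp
  have h3 : 0 < Module.finrank ℝ Sᗮ := by omega
  have h4 : Sᗮ ≠ ⊥ := by
    intro hb
    rw [hb] at h3
    simp at h3
  obtain ⟨v, hv, hv0⟩ := Submodule.exists_mem_ne_zero_of_ne_bot h4
  refine ⟨v, hv0, ?_, ?_⟩
  · rw [real_inner_comm]
    exact (Submodule.mem_orthogonal S v).mp hv u (Submodule.subset_span (by simp))
  · rw [real_inner_comm]
    exact (Submodule.mem_orthogonal S v).mp hv h (Submodule.subset_span (by simp))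

theorem collinear_case (q : Fin 3 → ℝ) (a : Fin 3 → E3) (ha : Function.Injective a)
    (hq : ∀ j, q j ≠ 0) (hcol : Collinear ℝ (Set.range a))
    (hnd : ∀ x ∈ equilibria q a, HasNondegenerateHessianAt (potential q a) x) :
    (equilibria q a).encard ≤ 4 := by
  obtain ⟨v, hv⟩ := (collinear_iff_of_mem (k := ℝ) (p₀ := a 0) (Set.mem_range_self 0)).mp hcol
  have hv' : ∀ j, ∃ r : ℝ, a j = r • v +ᵥ a 0 := fun j => hv (a j) ⟨j, rfl⟩
  choose r hr using hv'
  have hv0 : v ≠ 0 := by
    rintro rfl
    have h1 := hr 1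
    simp only [smul_zero, zero_vadd] at h1
    exact absurd (ha h1) (by decide)
  have hvn : ‖v‖ ≠ 0 := norm_ne_zero_iff.mpr hv0
  obtain ⟨u, hu⟩ : ∃ u : E3, u = (1 / ‖v‖) • v := ⟨_, rfl⟩
  have hu1 : ‖u‖ = 1 := by
    rw [hu, norm_smul]; simp [hvn]
  have huu : ⟪u, u⟫ = 1 := by
    rw [real_inner_self_eq_norm_sq, hu1]; norm_num
  set t : Fin 3 → ℝ := fun j => r j * ‖v‖ with htdef
  have hat : ∀ j, a j = a 0 + t j • u := by
    intro j
    rw [hr j, hu, smul_smul, htdef]
    simp only [vadd_eq_add]
    rw [add_comm]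
    congr 2
    field_simp
  have htinj : Function.Injective t := by
    intro i j hij
    apply ha
    rw [hat i, hat j, hij]
  have hsub : equilibria q a ⊆ (fun s : ℝ => a 0 + s • u) '' (lineZ q t) := by
    intro x hx
    have hx' := (mem_equilibria_iff q a x).mp hx
    obtain ⟨hne, hg⟩ := hx'
    set s : ℝ := ⟪u, x - a 0⟫ with hs
    set h : E3 := x - a 0 - s • u with hh
    have hhu : ⟪h, u⟫ = 0 := by
      rw [hh, inner_sub_left, real_inner_smul_left, huu, hs, real_inner_comm]
      simp
    have hxa : ∀ j, a j - x = (t j - s) • u - h := by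
      intro j
      rw [hat j, hh, sub_smul]
      abel
    have hgs : gradV q a x = (∑ j, (q j / ‖x - a j‖ ^ 3) * (t j - s)) • u - (∑ j, q j / ‖x - a j‖ ^ 3) • h := by
      unfold gradV
      rw [Finset.sum_smul, Finset.sum_smul, ← Finset.sum_sub_distrib]
      refine Finset.sum_congr rfl fun j _ => ?_
      rw [hxa j, smul_sub, smul_smul]
    have h0 : h = 0 := by
      by_contra hne0
      have hin : ⟪gradV q a x, h⟫ = 0 := by rw [hg, inner_zero_left]
      rw [hgs, inner_sub_left, real_inner_smul_left, real_inner_smul_left, real_inner_comm, hhu,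
        real_inner_self_eq_norm_sq] at hin
      have hhn : ‖h‖ ^ 2 ≠ 0 := by
        have := norm_ne_zero_iff.mpr hne0
        positivity
      have hW : (∑ j, q j / ‖x - a j‖ ^ 3) = 0 := by
        simp only [mul_zero, zero_sub, neg_eq_zero] at hin
        rcases mul_eq_zero.mp hin with h' | h'
        · simpa using h'
        · exact absurd h' hhn
      obtain ⟨w, hw0, hwu, hwh⟩ := exists_orth u h
      obtain ⟨z, hz⟩ := (nondeg_iff q a x hne).mp (hnd x hx) w hw0
      apply hz
      unfold hessV
      have hin : ∀ j, ⟪x - a j, w⟫ = 0 := by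
        intro j
        rw [← neg_sub (a j) x, hxa j, inner_neg_left, inner_sub_left, real_inner_smul_left,
          real_inner_comm, hwu, real_inner_comm, hwh]
        simp
      have : ∀ j, q j * (3 * (⟪x - a j, w⟫ * ⟪x - a j, z⟫) / ‖x - a j‖ ^ 5 - ⟪w, z⟫ / ‖x - a j‖ ^ 3)
          = -⟪w, z⟫ * (q j / ‖x - a j‖ ^ 3) := by
        intro j
        rw [hin j]
        ring
      simp only [this]
      rw [← Finset.mul_sum, hW, mul_zero]
    have hxs : x = a 0 + s • u := by
      have : x - a 0 - s • u = 0 := h0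
      have h3 : x - a 0 = s • u := sub_eq_zero.mp this
      rw [← h3]; abel
    have hnorm : ∀ j, ‖x - a j‖ = |t j - s| := by
      intro j
      rw [← norm_neg, neg_sub, hxa j, h0, sub_zero, norm_smul, hu1, mul_one, Real.norm_eq_abs]
    refine ⟨s, ⟨?_, ?_⟩, hxs.symm⟩
    · intro j hj
      apply hne j
      rw [hxs, hat j, hj]
    · have hu0 : u ≠ 0 := by
        intro hu0; rw [hu0] at hu1; simp at hu1
      rw [hgs, h0, smul_zero, sub_zero] at hg
      rcases smul_eq_zero.mp hg with h' | h'
      · rw [← h']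
        refine Finset.sum_congr rfl fun j _ => ?_
        rw [hnorm j]
        ring
      · exact absurd h' hu0
  exact (Set.encard_le_encard hsub).trans ((Set.encard_image_le _ _).trans (line_count q t hq htinj))

end Pool.Agent.MX
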