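import Mathlib

set_option autoImplicit false

open scoped RealInnerProductSpace ComplexConjugate

namespace Pool.Agent.MX

/-- planar field -/
noncomputable def F2 (q : Fin 3 → ℝ) (a : Fin 3 → ℂ) (z : ℂ) : ℂ :=
  ∑ j, ((q j / ‖z - a j‖ ^ 3 : ℝ) : ℂ) * (a j - z)

/-- planar equilibria -/
def eq2 (q : Fin 3 → ℝ) (a : Fin 3 → ℂ) : Set ℂ := {z | (∀ j, z ≠ a j) ∧ F2 q a z = 0}

/-- four times the planar Hessian determinant -/
noncomputable def J2 (q : Fin 3 → ℝ) (a : Fin 3 → ℂ) (z : ℂ) : ℝ :=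
  (∑ j, q j / ‖z - a j‖ ^ 3) ^ 2 -
    9 * ‖∑ j, ((q j / ‖z - a j‖ ^ 3 : ℝ) : ℂ) * ((a j - z) / conj (a j - z))‖ ^ 2

/-- the regularised field -/
noncomputable def Y2 (q : Fin 3 → ℝ) (a : Fin 3 → ℂ) (z : ℂ) : ℂ :=
  ((q 0 * (‖z - a 1‖ ^ 3 * ‖z - a 2‖ ^ 3) : ℝ) : ℂ) * (a 0 - z) +
  ((q 1 * (‖z - a 0‖ ^ 3 * ‖z - a 2‖ ^ 3) : ℝ) : ℂ) * (a 1 - z) +
  ((q 2 * (‖z - a 0‖ ^ 3 * ‖z - a 1‖ ^ 3) : ℝ) : ℂ) * (a 2 - z)

/-- product of the cubes -/
noncomputable def W2 (a : Fin 3 → ℂ) (z : ℂ) : ℝ := ‖z - a 0‖ ^ 3 * ‖z - a 1‖ ^ 3 * ‖z - a 2‖ ^ 3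

theorem Y2_eq (q : Fin 3 → ℝ) (a : Fin 3 → ℂ) (z : ℂ) (hz : ∀ j, z ≠ a j) :
    Y2 q a z = (W2 a z : ℂ) * F2 q a z := by
  have n0 : ‖z - a 0‖ ≠ 0 := norm_ne_zero_iff.mpr (sub_ne_zero.mpr (hz 0))
  have n1 : ‖z - a 1‖ ≠ 0 := norm_ne_zero_iff.mpr (sub_ne_zero.mpr (hz 1))
  have n2 : ‖z - a 2‖ ≠ 0 := norm_ne_zero_iff.mpr (sub_ne_zero.mpr (hz 2))
  unfold Y2 F2 W2
  rw [Fin.sum_univ_three]
  have m0 : ((‖z - a 0‖ : ℝ) : ℂ) ≠ 0 := by exact_mod_cast n0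
  have m1 : ((‖z - a 1‖ : ℝ) : ℂ) ≠ 0 := by exact_mod_cast n1
  have m2 : ((‖z - a 2‖ : ℝ) : ℂ) ≠ 0 := by exact_mod_cast n2
  push_cast
  field_simp

theorem W2_pos (a : Fin 3 → ℂ) (z : ℂ) (hz : ∀ j, z ≠ a j) : 0 < W2 a z := by
  have n0 : ‖z - a 0‖ ≠ 0 := norm_ne_zero_iff.mpr (sub_ne_zero.mpr (hz 0))
  have n1 : ‖z - a 1‖ ≠ 0 := norm_ne_zero_iff.mpr (sub_ne_zero.mpr (hz 1))
  have n2 : ‖z - a 2‖ ≠ 0 := norm_ne_zero_iff.mpr (sub_ne_zero.mpr (hz 2))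
  unfold W2
  positivity

theorem Y2_charge (q : Fin 3 → ℝ) (a : Fin 3 → ℂ) (j : Fin 3) : Y2 q a (a j) = 0 := by
  unfold Y2
  fin_cases j <;> simp

theorem Y2_zero_iff (q : Fin 3 → ℝ) (a : Fin 3 → ℂ) (z : ℂ) :
    Y2 q a z = 0 ↔ (z ∈ eq2 q a ∨ ∃ j, z = a j) := by
  constructor
  · intro h
    by_cases hz : ∀ j, z ≠ a j
    · left
      refine ⟨hz, ?_⟩
      rw [Y2_eq q a z hz] at h
      rcases mul_eq_zero.mp h with h' | h'
      · exact absurd (by exact_mod_cast h') (W2_pos a z hz).ne'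
      · exact h'
    · right
      push Not at hz
      exact hz
  · rintro (⟨hz, h⟩ | ⟨j, rfl⟩)
    · rw [Y2_eq q a z hz, h, mul_zero]
    · exact Y2_charge q a j

theorem Y2_continuous (q : Fin 3 → ℝ) (a : Fin 3 → ℂ) : Continuous (Y2 q a) := by
  unfold Y2
  fun_prop

section gen

variable {E : Type*} [NormedAddCommGroup E] [InnerProductSpace ℝ E]

theorem hasFDerivAt_norm_sub' (a x : E) (h : x ≠ a) :
    HasFDerivAt (fun y : E => ‖y - a‖) ((1 / ‖x - a‖) • innerSL ℝ (x - a)) x := by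
  have hne : x - a ≠ 0 := sub_ne_zero.mpr h
  have hn : ‖x - a‖ ≠ 0 := norm_ne_zero_iff.mpr hne
  have h1 : HasFDerivAt (fun y : E => ‖y - a‖ ^ 2) (2 • (innerSL ℝ (x - a))) x := by
    have := ((hasFDerivAt_id x).sub_const a).norm_sq
    simpa using this
  have h2 := h1.sqrt (by positivity)
  have h3 : (fun y : E => √(‖y - a‖ ^ 2)) = fun y => ‖y - a‖ := by
    funext y; exact Real.sqrt_sq (norm_nonneg _)
  rw [h3] at h2
  refine h2.congr_fderiv ?_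
  rw [Real.sqrt_sq (norm_nonneg _)]
  ext v
  simp
  field_simp

theorem hasFDerivAt_inv_cube' (a x : E) (h : x ≠ a) :
    HasFDerivAt (fun y : E => 1 / ‖y - a‖ ^ 3) (-(3 / ‖x - a‖ ^ 5) • innerSL ℝ (x - a)) x := by
  have hne : x - a ≠ 0 := sub_ne_zero.mpr h
  have hn : ‖x - a‖ ≠ 0 := norm_ne_zero_iff.mpr hne
  have h0 : HasDerivAt (fun t : ℝ => 1 / t ^ 3) (-(3 / ‖x - a‖ ^ 4)) ‖x - a‖ := by
    have := (hasDerivAt_pow 3 (‖x - a‖)).inv (pow_ne_zero 3 hn)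
    simp only [one_div]
    refine this.congr_deriv ?_
    norm_num
    field_simp
  have h1 := h0.comp_hasFDerivAt x (hasFDerivAt_norm_sub' a x h)
  refine h1.congr_fderiv ?_
  ext v
  simp
  field_simp

theorem differentiableAt_cube (a x : E) (h : x ≠ a) : DifferentiableAt ℝ (fun y : E => ‖y - a‖ ^ 3) x :=
  (hasFDerivAt_norm_sub' a x h).differentiableAt.pow 3

end gen

/-- the real linear map `v ↦ α v + β v̄`. -/
noncomputable def Lab (α β : ℂ) : ℂ →L[ℝ] ℂ :=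
  (α • ContinuousLinearMap.id ℝ ℂ) + β • (Complex.conjCLE : ℂ →L[ℝ] ℂ)

theorem Lab_apply (α β v : ℂ) : Lab α β v = α * v + β * conj v := by
  simp [Lab]

theorem Lab_det (α β : ℂ) : (Lab α β).det = ‖α‖ ^ 2 - ‖β‖ ^ 2 := by
  unfold ContinuousLinearMap.det
  rw [← LinearMap.det_toMatrix Complex.basisOneI]
  rw [Matrix.det_fin_two]
  simp only [LinearMap.toMatrix_apply, ContinuousLinearMap.coe_coe, Lab_apply, Complex.coe_basisOneI,
    Complex.coe_basisOneI_repr]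
  rw [← Complex.normSq_eq_norm_sq, ← Complex.normSq_eq_norm_sq]
  simp [Complex.normSq_apply]
  ring

theorem hasFDerivAt_F2 (q : Fin 3 → ℝ) (a : Fin 3 → ℂ) (z : ℂ) (hz : ∀ j, z ≠ a j) :
    HasFDerivAt (F2 q a) (Lab ((1 / 2 * ∑ j, q j / ‖z - a j‖ ^ 3 : ℝ) : ℂ)
      ((3 / 2 : ℂ) * ∑ j, ((q j / ‖z - a j‖ ^ 3 : ℝ) : ℂ) * ((a j - z) / conj (a j - z)))) z := by
  have h1 : HasFDerivAt (F2 q a) (∑ j, Lab ((1 / 2 * (q j / ‖z - a j‖ ^ 3) : ℝ) : ℂ)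
      ((3 / 2 : ℂ) * (((q j / ‖z - a j‖ ^ 3 : ℝ) : ℂ) * ((a j - z) / conj (a j - z))))) z := by
    unfold F2
    refine HasFDerivAt.fun_sum fun j _ => ?_
    have hj := hz j
    have hne : a j - z ≠ 0 := sub_ne_zero.mpr (hz j).symm
    have hn : ‖z - a j‖ ≠ 0 := norm_ne_zero_iff.mpr (sub_ne_zero.mpr hj)
    have h2 := ((hasFDerivAt_inv_cube' (a j) z hj).const_mul (q j))
    have h3 : HasFDerivAt (fun y : ℂ => a j - y) (-ContinuousLinearMap.id ℝ ℂ) z := by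
      simpa using (hasFDerivAt_id z).const_sub (a j)
    have h4 := h2.fun_smul h3
    refine (h4.congr_of_eventuallyEq ?_).congr_fderiv ?_
    · filter_upwards with y
      rw [Complex.real_smul]
      congr 2
      ring
    · apply ContinuousLinearMap.ext
      intro v
      rw [Lab_apply]
      simp only [add_apply, smul_apply, ContinuousLinearMap.smulRight_apply, neg_apply,
        ContinuousLinearMap.id_apply, innerSL_apply_apply, Complex.real_smul, smul_eq_mul]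
      have hc : conj (a j - z) ≠ 0 := (map_ne_zero _).mpr hne
      have hin : ((⟪z - a j, v⟫ : ℝ) : ℂ) = -(conj (a j - z) * v + (a j - z) * conj v) / 2 := by
        rw [Complex.inner]
        have : ∀ w : ℂ, ((w.re : ℝ) : ℂ) = (w + conj w) / 2 := fun w => by
          rw [Complex.add_conj]; push_cast; ring
        rw [this]
        simp only [map_mul, map_sub, Complex.conj_conj]
        ring
      have hsq : ((‖z - a j‖ : ℝ) : ℂ) ^ 2 = (a j - z) * conj (a j - z) := by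
        rw [Complex.mul_conj, Complex.normSq_eq_norm_sq, norm_sub_rev]
        push_cast; ring
      have hn' : ((‖z - a j‖ : ℝ) : ℂ) ≠ 0 := by exact_mod_cast hn
      push_cast
      rw [hin]
      have h5 : ((‖z - a j‖ : ℝ) : ℂ) ^ 5 = ((‖z - a j‖ : ℝ) : ℂ) ^ 3 * ((a j - z) * conj (a j - z)) := by
        rw [← hsq]; ring
      rw [h5]
      field_simp
      ring
  refine h1.congr_fderiv ?_
  apply ContinuousLinearMap.ext
  intro v
  rw [Lab_apply]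
  simp only [FunLike.coe_sum, Finset.sum_apply, Lab_apply]
  rw [Finset.sum_add_distrib, ← Finset.sum_mul, ← Finset.sum_mul, ← Finset.mul_sum]
  congr 2
  push_cast
  rw [Finset.mul_sum]

theorem W2_differentiableAt (a : Fin 3 → ℂ) (z : ℂ) (hz : ∀ j, z ≠ a j) :
    DifferentiableAt ℝ (W2 a) z := by
  unfold W2
  exact ((differentiableAt_cube _ _ (hz 0)).mul (differentiableAt_cube _ _ (hz 1))).mul
    (differentiableAt_cube _ _ (hz 2))

theorem hasFDerivAt_Y2 (q : Fin 3 → ℝ) (a : Fin 3 → ℂ) (z : ℂ) (hz : z ∈ eq2 q a) :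
    ∃ A : ℂ →L[ℝ] ℂ, HasFDerivAt (Y2 q a) A z ∧ A.det = (W2 a z) ^ 2 / 4 * J2 q a z := by
  obtain ⟨hne, h0⟩ := hz
  have hF := hasFDerivAt_F2 q a z hne
  set α : ℂ := ((1 / 2 * ∑ j, q j / ‖z - a j‖ ^ 3 : ℝ) : ℂ) with hα
  set β : ℂ := (3 / 2 : ℂ) * ∑ j, ((q j / ‖z - a j‖ ^ 3 : ℝ) : ℂ) * ((a j - z) / conj (a j - z)) with hβ
  have hW := (W2_differentiableAt a z hne).hasFDerivAt
  have h1 := hW.fun_smul hF
  have hev : Y2 q a =ᶠ[nhds z] fun y => W2 a y • F2 q a y := by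
    have : ∀ᶠ y in nhds z, ∀ j, y ≠ a j := by
      rw [Filter.eventually_all]
      intro j
      exact isOpen_ne.mem_nhds (hne j)
    filter_upwards [this] with y hy
    rw [Y2_eq q a y hy, Complex.real_smul]
  refine ⟨Lab ((W2 a z : ℂ) * α) ((W2 a z : ℂ) * β), ?_, ?_⟩
  · refine (h1.congr_of_eventuallyEq hev).congr_fderiv ?_
    apply ContinuousLinearMap.ext
    intro v
    simp only [add_apply, smul_apply, ContinuousLinearMap.smulRight_apply, h0, smul_zero, add_zero, Lab_apply,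
      Complex.real_smul]
    ring
  · rw [Lab_det]
    unfold J2
    rw [norm_mul, norm_mul, hα, hβ, norm_mul]
    rw [Complex.norm_real, Complex.norm_real, Real.norm_eq_abs, Real.norm_eq_abs]
    have e1 : ‖(3 / 2 : ℂ)‖ = 3 / 2 := by
      norm_num
    rw [e1, mul_pow, mul_pow, mul_pow, sq_abs, sq_abs]
    ring

end Pool.Agent.MX
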