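import Mathlib
import Pool.Agent.Lib_helper34.MX.PlanarCalc

set_option autoImplicit false

open scoped RealInnerProductSpace ComplexConjugate

namespace Pool.Agent.MX

/-- planar cross product -/
def cr (u v : ℂ) : ℝ := u.re * v.im - u.im * v.re

theorem abs_cr_le (u v : ℂ) : |cr u v| ≤ ‖u‖ * ‖v‖ := by
  have h : cr u v = (conj u * v).im := by
    simp [cr, Complex.mul_im]; ring
  rw [h]
  refine (Complex.abs_im_le_norm _).trans ?_
  rw [norm_mul, Complex.norm_conj]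

/-- barycentric numerators -/
def Xc (a : Fin 3 → ℂ) (z : ℂ) : Fin 3 → ℝ :=
  ![cr (a 1 - z) (a 2 - z), cr (a 2 - z) (a 0 - z), cr (a 0 - z) (a 1 - z)]

/-- twice the signed area -/
def Tc (a : Fin 3 → ℂ) : ℝ := cr (a 1 - a 0) (a 2 - a 0)

theorem sum_Xc (a : Fin 3 → ℂ) (z : ℂ) : ∑ j, Xc a z j = Tc a := by
  rw [Fin.sum_univ_three]
  simp [Xc, Tc, cr]
  ring

theorem sum_Xc_mul (a : Fin 3 → ℂ) (z : ℂ) : ∑ j, ((Xc a z j : ℝ) : ℂ) * a j = (Tc a : ℂ) * z := by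
  rw [Fin.sum_univ_three]
  apply Complex.ext
  · simp [Xc, Tc, cr]; ring
  · simp [Xc, Tc, cr]; ring

theorem abs_cr_sub (u v z : ℂ) (A : ℝ) (hu : ‖u‖ ≤ A) (hv : ‖v‖ ≤ A) :
    |cr (u - z) (v - z)| ≤ A ^ 2 + 2 * A * ‖z‖ := by
  have hA : 0 ≤ A := (norm_nonneg _).trans hu
  have h : cr (u - z) (v - z) = cr u v - cr u z - cr z v := by
    simp [cr]; ring
  rw [h]
  have h1 := abs_cr_le u v
  have h2 := abs_cr_le u z
  have h3 := abs_cr_le z v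
  have h4 : ‖u‖ * ‖v‖ ≤ A * A := mul_le_mul hu hv (norm_nonneg _) hA
  have h5 : ‖u‖ * ‖z‖ ≤ A * ‖z‖ := mul_le_mul_of_nonneg_right hu (norm_nonneg _)
  have h6 : ‖z‖ * ‖v‖ ≤ ‖z‖ * A := mul_le_mul_of_nonneg_left hv (norm_nonneg _)
  calc |cr u v - cr u z - cr z v| ≤ |cr u v| + |cr u z| + |cr z v| := by
        have := abs_sub (cr u v - cr u z) (cr z v)
        have := abs_sub (cr u v) (cr u z)
        linarith
    _ ≤ A ^ 2 + 2 * A * ‖z‖ := by nlinarith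

theorem abs_Xc_le (a : Fin 3 → ℂ) (z : ℂ) (A : ℝ) (hA : ∀ j, ‖a j‖ ≤ A) (j : Fin 3) :
    |Xc a z j| ≤ A ^ 2 + 2 * A * ‖z‖ := by
  fin_cases j
  · exact abs_cr_sub _ _ _ _ (hA 1) (hA 2)
  · exact abs_cr_sub _ _ _ _ (hA 2) (hA 0)
  · exact abs_cr_sub _ _ _ _ (hA 0) (hA 1)

/-- weights of a vanishing combination are barycentric -/
theorem weights_eq (a : Fin 3 → ℂ) (z : ℂ) (w : Fin 3 → ℝ)
    (h : ∑ j, ((w j : ℝ) : ℂ) * (a j - z) = 0) (j : Fin 3) :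
    Tc a * w j = (∑ i, w i) * Xc a z j := by
  rw [Fin.sum_univ_three] at h
  have hre := congrArg Complex.re h
  have him := congrArg Complex.im h
  simp at hre him
  rw [Fin.sum_univ_three, ← sum_Xc a z, Fin.sum_univ_three]
  have k01 : w 0 * Xc a z 1 = w 1 * Xc a z 0 := by
    simp only [Xc, cr, Matrix.cons_val_zero, Matrix.cons_val_one, Complex.sub_re, Complex.sub_im]
    linear_combination ((a 2).re - z.re) * him - ((a 2).im - z.im) * hre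
  have k12 : w 1 * Xc a z 2 = w 2 * Xc a z 1 := by
    simp only [Xc, cr, Matrix.cons_val_zero, Matrix.cons_val_one, Matrix.cons_val, Complex.sub_re, Complex.sub_im]
    linear_combination ((a 0).re - z.re) * him - ((a 0).im - z.im) * hre
  have k02 : w 0 * Xc a z 2 = w 2 * Xc a z 0 := by
    simp only [Xc, cr, Matrix.cons_val_zero, Matrix.cons_val_one, Matrix.cons_val, Complex.sub_re, Complex.sub_im]
    linear_combination -((a 1).re - z.re) * him + ((a 1).im - z.im) * hre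
  fin_cases j
  · simp only [Fin.zero_eta]; linear_combination k01 + k02
  · simp only [Fin.mk_one]; linear_combination -k01 + k12
  · simp only [Fin.reduceFinMk]; linear_combination -k12 - k02

section far

variable (a : Fin 3 → ℂ) (A : ℝ) (hA : ∀ j, ‖a j‖ ≤ A) (hT : Tc a ≠ 0) (z : ℂ)
  (h2 : 2 * A ≤ ‖z‖) (h1 : 0 < ‖z‖) (hR : 45 * A ^ 3 < |Tc a| * ‖z‖)

include hA h2 h1 in
theorem far_X (j : Fin 3) : |Xc a z j| ≤ 5 / 2 * A * ‖z‖ := by
  have hA0 : 0 ≤ A := (norm_nonneg _).trans (hA 0)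
  have := abs_Xc_le a z A hA j
  nlinarith

include hA h2 h1 in
theorem far_r (j : Fin 3) : ‖z‖ / 2 ≤ ‖a j - z‖ ∧ ‖a j - z‖ ≤ 3 / 2 * ‖z‖ ∧ |‖a j - z‖ - ‖z‖| ≤ A := by
  have hj := hA j
  have hA0 : 0 ≤ A := (norm_nonneg _).trans (hA 0)
  have e1 : |‖a j - z‖ - ‖z‖| ≤ ‖a j‖ := by
    have := abs_norm_sub_norm_le (a j - z) (-z)
    rw [norm_neg] at this
    refine this.trans (le_of_eq ?_)
    congr 1; ring
  have e2 := abs_le.mp (e1.trans hj)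
  refine ⟨by linarith [e2.1], by linarith [e2.2], e1.trans hj⟩

include hA h2 h1 hR in
theorem far_M : |Tc a| < 3 * ‖∑ j, ((Xc a z j : ℝ) : ℂ) * ((a j - z) / conj (a j - z))‖ := by
  have hA0 : 0 ≤ A := (norm_nonneg _).trans (hA 0)
  have hz : z ≠ 0 := norm_pos_iff.mp h1
  have hzc : conj z ≠ 0 := (map_ne_zero _).mpr hz
  have hp : ∀ j, conj (a j - z) ≠ 0 := by
    intro j
    rw [map_ne_zero]
    have := (far_r a A hA z h2 h1 j).1
    intro h0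
    rw [h0, norm_zero] at this
    linarith
  set E : ℂ := ∑ j, ((Xc a z j : ℝ) : ℂ) * ((a j * conj z - conj (a j) * z) * conj (a j) / (conj (a j - z) * (conj z) ^ 2))
    with hE
  have hid : ∑ j, ((Xc a z j : ℝ) : ℂ) * ((a j - z) / conj (a j - z)) = (Tc a : ℂ) * (z / conj z) + E := by
    have s1 : ∑ j, ((Xc a z j : ℝ) : ℂ) = (Tc a : ℂ) := by
      rw [← sum_Xc a z]; push_cast; rfl
    have s2 := sum_Xc_mul a z
    have s3 : ∑ j, ((Xc a z j : ℝ) : ℂ) * conj (a j) = (Tc a : ℂ) * conj z := by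
      have := congrArg conj s2
      rw [map_sum, map_mul, Complex.conj_ofReal] at this
      simpa using this
    have s4 : ∑ j, ((Xc a z j : ℝ) : ℂ) * ((a j * conj z - conj (a j) * z) / (conj z) ^ 2) = 0 := by
      have : ∑ j, ((Xc a z j : ℝ) : ℂ) * ((a j * conj z - conj (a j) * z) / (conj z) ^ 2)
          = ((∑ j, ((Xc a z j : ℝ) : ℂ) * a j) * conj z - (∑ j, ((Xc a z j : ℝ) : ℂ) * conj (a j)) * z) / (conj z) ^ 2 := by
        rw [Finset.sum_mul, Finset.sum_mul, ← Finset.sum_sub_distrib, Finset.sum_div]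
        refine Finset.sum_congr rfl fun j _ => ?_
        ring
      rw [this, s2, s3]
      have : (Tc a : ℂ) * z * conj z - (Tc a : ℂ) * conj z * z = 0 := by ring
      rw [this, zero_div]
    rw [← s1, Finset.sum_mul, hE, ← sub_eq_zero, ← Finset.sum_add_distrib, ← Finset.sum_sub_distrib, ← neg_eq_zero,
      ← Finset.sum_neg_distrib, ← s4]
    refine Finset.sum_congr rfl fun j _ => ?_
    have h3 := hp j
    rw [map_sub] at h3 ⊢
    field_simp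
    ring
  have hEb : ‖E‖ ≤ 30 * A ^ 3 / ‖z‖ := by
    have hb : ∀ j, ‖((Xc a z j : ℝ) : ℂ) * ((a j * conj z - conj (a j) * z) * conj (a j) / (conj (a j - z) * (conj z) ^ 2))‖
        ≤ 10 * A ^ 3 / ‖z‖ := by
      intro j
      have x1 := far_X a A hA z h2 h1 j
      have r1 := (far_r a A hA z h2 h1 j).1
      rw [norm_mul, norm_div, norm_mul, norm_mul, norm_pow, Complex.norm_real, Real.norm_eq_abs,
        Complex.norm_conj, Complex.norm_conj, Complex.norm_conj]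
      have n1 : ‖a j * conj z - conj (a j) * z‖ ≤ 2 * A * ‖z‖ := by
        refine (norm_sub_le _ _).trans ?_
        rw [norm_mul, norm_mul, Complex.norm_conj, Complex.norm_conj]
        have := mul_le_mul_of_nonneg_right (hA j) (norm_nonneg z)
        linarith
      have n2 : ‖a j * conj z - conj (a j) * z‖ * ‖a j‖ ≤ 2 * A * ‖z‖ * A :=
        mul_le_mul n1 (hA j) (norm_nonneg _) (by positivity)
      have n3 : ‖z‖ / 2 * ‖z‖ ^ 2 ≤ ‖a j - z‖ * ‖z‖ ^ 2 := mul_le_mul_of_nonneg_right r1 (by positivity)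
      have n4 : ‖a j * conj z - conj (a j) * z‖ * ‖a j‖ / (‖a j - z‖ * ‖z‖ ^ 2) ≤ 2 * A * ‖z‖ * A / (‖z‖ / 2 * ‖z‖ ^ 2) :=
        div_le_div₀ (by positivity) n2 (by positivity) n3
      calc |Xc a z j| * (‖a j * conj z - conj (a j) * z‖ * ‖a j‖ / (‖a j - z‖ * ‖z‖ ^ 2))
          ≤ (5 / 2 * A * ‖z‖) * (2 * A * ‖z‖ * A / (‖z‖ / 2 * ‖z‖ ^ 2)) :=
            mul_le_mul x1 n4 (by positivity) (by positivity)
        _ = 10 * A ^ 3 / ‖z‖ := by field_simp; ring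
    refine (norm_sum_le _ _).trans ?_
    rw [Fin.sum_univ_three]
    have := hb 0
    have := hb 1
    have := hb 2
    have e : 30 * A ^ 3 / ‖z‖ = 10 * A ^ 3 / ‖z‖ + 10 * A ^ 3 / ‖z‖ + 10 * A ^ 3 / ‖z‖ := by ring
    linarith
  rw [hid]
  have hz1 : ‖(Tc a : ℂ) * (z / conj z)‖ = |Tc a| := by
    rw [norm_mul, norm_div, Complex.norm_conj, div_self h1.ne', mul_one, Complex.norm_real, Real.norm_eq_abs]
  have hlow : |Tc a| - ‖E‖ ≤ ‖(Tc a : ℂ) * (z / conj z) + E‖ := by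
    rw [← hz1]
    have := norm_sub_norm_le ((Tc a : ℂ) * (z / conj z)) (-E)
    rw [norm_neg, sub_neg_eq_add] at this
    exact this
  have hfin : 30 * A ^ 3 / ‖z‖ < 2 / 3 * |Tc a| := by
    rw [div_lt_iff₀ h1]
    linarith
  linarith

include hA h2 h1 in
theorem far_cube : |(∑ j, Xc a z j * ‖a j - z‖ ^ 3) + 2 * Tc a * ‖z‖ ^ 3| ≤ 27 * A ^ 3 * ‖z‖ ^ 2 := by
  have hA0 : 0 ≤ A := (norm_nonneg _).trans (hA 0)
  -- r^2
  have hr2 : ∀ j, ‖a j - z‖ ^ 2 = ‖z‖ ^ 2 - 2 * (conj z * a j).re + ‖a j‖ ^ 2 := by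
    intro j
    rw [← Complex.normSq_eq_norm_sq, ← Complex.normSq_eq_norm_sq, ← Complex.normSq_eq_norm_sq,
      Complex.normSq_apply, Complex.normSq_apply, Complex.normSq_apply]
    simp [Complex.mul_re]
    ring
  have hid : (∑ j, Xc a z j * ‖a j - z‖ ^ 3) + 2 * Tc a * ‖z‖ ^ 3 =
      ∑ j, Xc a z j * (3 / 2 * ‖z‖ * ‖a j‖ ^ 2 + (‖a j - z‖ - ‖z‖) ^ 2 * (‖a j - z‖ + ‖z‖ / 2)) := by
    have s2 : ∑ j, Xc a z j * (conj z * a j).re = Tc a * ‖z‖ ^ 2 := by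
      have h : (conj z * ∑ j, ((Xc a z j : ℝ) : ℂ) * a j).re = (conj z * ((Tc a : ℂ) * z)).re := by
        rw [sum_Xc_mul a z]
      rw [Finset.mul_sum, Complex.re_sum] at h
      have e1 : ∀ j, (conj z * (((Xc a z j : ℝ) : ℂ) * a j)).re = Xc a z j * (conj z * a j).re := by
        intro j
        have : conj z * (((Xc a z j : ℝ) : ℂ) * a j) = ((Xc a z j : ℝ) : ℂ) * (conj z * a j) := by ring
        rw [this, Complex.re_ofReal_mul]
      simp only [e1] at h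
      rw [h]
      have : conj z * ((Tc a : ℂ) * z) = ((Tc a * ‖z‖ ^ 2 : ℝ) : ℂ) := by
        push_cast
        rw [← Complex.conj_mul' z]
        ring
      rw [this, Complex.ofReal_re]
    have e3 : ∀ j, Xc a z j * ‖a j - z‖ ^ 3 = Xc a z j * ‖z‖ ^ 3 + 3 / 2 * ‖z‖ * (-2 * (Xc a z j * (conj z * a j).re)) +
        Xc a z j * (3 / 2 * ‖z‖ * ‖a j‖ ^ 2 + (‖a j - z‖ - ‖z‖) ^ 2 * (‖a j - z‖ + ‖z‖ / 2)) := by
      intro j
      have := hr2 j
      have e4 : ‖a j - z‖ ^ 3 = ‖z‖ ^ 3 + 3 / 2 * ‖z‖ * (‖a j - z‖ ^ 2 - ‖z‖ ^ 2) +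
        (‖a j - z‖ - ‖z‖) ^ 2 * (‖a j - z‖ + ‖z‖ / 2) := by ring
      rw [e4, this]
      ring
    simp only [e3]
    rw [Finset.sum_add_distrib, Finset.sum_add_distrib, ← Finset.sum_mul, sum_Xc, ← Finset.mul_sum,
      ← Finset.mul_sum, s2]
    ring
  rw [hid]
  refine (Finset.abs_sum_le_sum_abs _ _).trans ?_
  have hb : ∀ j, |Xc a z j * (3 / 2 * ‖z‖ * ‖a j‖ ^ 2 + (‖a j - z‖ - ‖z‖) ^ 2 * (‖a j - z‖ + ‖z‖ / 2))|
      ≤ 9 * A ^ 3 * ‖z‖ ^ 2 := by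
    intro j
    obtain ⟨r1, r2, r3⟩ := far_r a A hA z h2 h1 j
    have x1 := far_X a A hA z h2 h1 j
    rw [abs_mul]
    have k1 : ‖a j‖ ^ 2 ≤ A ^ 2 := pow_le_pow_left₀ (norm_nonneg _) (hA j) 2
    have k2 : (‖a j - z‖ - ‖z‖) ^ 2 ≤ A ^ 2 := by
      rw [← sq_abs]; exact pow_le_pow_left₀ (abs_nonneg _) r3 2
    have k3 : 0 ≤ 3 / 2 * ‖z‖ * ‖a j‖ ^ 2 + (‖a j - z‖ - ‖z‖) ^ 2 * (‖a j - z‖ + ‖z‖ / 2) := by positivity
    have k4 : 3 / 2 * ‖z‖ * ‖a j‖ ^ 2 + (‖a j - z‖ - ‖z‖) ^ 2 * (‖a j - z‖ + ‖z‖ / 2) ≤ 7 / 2 * ‖z‖ * A ^ 2 := by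
      have m1 : ‖z‖ * ‖a j‖ ^ 2 ≤ ‖z‖ * A ^ 2 := mul_le_mul_of_nonneg_left k1 h1.le
      have m2 : (‖a j - z‖ - ‖z‖) ^ 2 * (‖a j - z‖ + ‖z‖ / 2) ≤ A ^ 2 * (2 * ‖z‖) :=
        mul_le_mul k2 (by linarith) (by positivity) (by positivity)
      nlinarith
    rw [abs_of_nonneg k3]
    calc |Xc a z j| * (3 / 2 * ‖z‖ * ‖a j‖ ^ 2 + (‖a j - z‖ - ‖z‖) ^ 2 * (‖a j - z‖ + ‖z‖ / 2))
        ≤ (5 / 2 * A * ‖z‖) * (7 / 2 * ‖z‖ * A ^ 2) := mul_le_mul x1 k4 k3 (by positivity)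
      _ ≤ 9 * A ^ 3 * ‖z‖ ^ 2 := by
          have : 0 ≤ A ^ 3 * ‖z‖ ^ 2 := by positivity
          nlinarith
  rw [Fin.sum_univ_three]
  have := hb 0
  have := hb 1
  have := hb 2
  linarith

end far

end Pool.Agent.MX
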