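import Mathlib
import Pool.Agent.Lib_helper34.MX.PlanarFar
import Pool.Agent.Lib_helper47.Deg.Local

set_option autoImplicit false

open scoped RealInnerProductSpace ComplexConjugate Topology
open Set Metric Filter

namespace Pool.Agent.MX

open Pool.Agent.Deg47

/-! ### derivative of the regularised field at the charges -/

theorem hasFDerivAt_cube_self (b : ℂ) : HasFDerivAt (fun z : ℂ => ‖z - b‖ ^ 3) (0 : ℂ →L[ℝ] ℝ) b := by
  have h := hasFDerivAt_norm_rpow (b - b : ℂ) (p := 3) (by norm_num)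
  have h2 : HasFDerivAt (fun z : ℂ => z - b) (ContinuousLinearMap.id ℝ ℂ) b := (hasFDerivAt_id b).sub_const b
  have h3 := HasFDerivAt.comp (f := fun z : ℂ => z - b) b h h2
  have e : ((fun x : ℂ => ‖x‖ ^ (3 : ℝ)) ∘ fun z : ℂ => z - b) = fun z : ℂ => ‖z - b‖ ^ 3 := by
    funext z
    simp only [Function.comp]
    exact_mod_cast Real.rpow_natCast ‖z - b‖ 3
  rw [e] at h3
  refine h3.congr_fderiv ?_
  ext v
  simp

theorem differentiableAt_cube_all (b z : ℂ) : DifferentiableAt ℝ (fun z : ℂ => ‖z - b‖ ^ 3) z := by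
  by_cases h : z = b
  · rw [h]; exact (hasFDerivAt_cube_self b).differentiableAt
  · exact differentiableAt_cube b z h

/-- the field near its first charge -/
theorem hasFDerivAt_charge (c0 c1 c2 : ℝ) (b0 b1 b2 : ℂ) :
    HasFDerivAt (fun z : ℂ => ((c0 * (‖z - b1‖ ^ 3 * ‖z - b2‖ ^ 3) : ℝ) : ℂ) * (b0 - z) +
      ((c1 * (‖z - b0‖ ^ 3 * ‖z - b2‖ ^ 3) : ℝ) : ℂ) * (b1 - z) +
      ((c2 * (‖z - b0‖ ^ 3 * ‖z - b1‖ ^ 3) : ℝ) : ℂ) * (b2 - z))
      (Lab (-((c0 * (‖b0 - b1‖ ^ 3 * ‖b0 - b2‖ ^ 3) : ℝ) : ℂ)) 0) b0 := by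
  have d1 := (differentiableAt_cube_all b1 b0).hasFDerivAt
  have d2 := (differentiableAt_cube_all b2 b0).hasFDerivAt
  have d0 := hasFDerivAt_cube_self b0
  have s : ∀ c : ℂ, HasFDerivAt (fun y : ℂ => c - y) (-ContinuousLinearMap.id ℝ ℂ) b0 := fun c => by
    simpa using (hasFDerivAt_id b0).const_sub c
  have t0 := (((d1.mul d2).const_mul c0).fun_smul (s b0))
  have t1 := (((d0.mul d2).const_mul c1).fun_smul (s b1))
  have t2 := (((d0.mul d1).const_mul c2).fun_smul (s b2))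
  have t := (t0.add t1).add t2
  refine (t.congr_of_eventuallyEq ?_).congr_fderiv ?_
  · filter_upwards with z
    simp only [Pi.add_apply, Complex.real_smul]
    rfl
  · apply ContinuousLinearMap.ext
    intro v
    rw [Lab_apply]
    simp [Complex.real_smul]

theorem hasFDerivAt_Y2_charge (q : Fin 3 → ℝ) (a : Fin 3 → ℂ) (hq : ∀ j, q j ≠ 0)
    (ha : Function.Injective a) (i : Fin 3) :
    ∃ A : ℂ →L[ℝ] ℂ, HasFDerivAt (Y2 q a) A (a i) ∧ 0 < A.det := by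
  have nz : ∀ i j : Fin 3, i ≠ j → ‖a i - a j‖ ≠ 0 := fun i j h =>
    norm_ne_zero_iff.mpr (sub_ne_zero.mpr (fun e => h (ha e)))
  have key : ∀ (i j k : Fin 3), i ≠ j → i ≠ k →
      0 < (Lab (-((q i * (‖a i - a j‖ ^ 3 * ‖a i - a k‖ ^ 3) : ℝ) : ℂ)) 0).det := by
    intro i j k hij hik
    rw [Lab_det, norm_neg, Complex.norm_real, norm_zero, Real.norm_eq_abs, sq_abs]
    have h1 := nz i j hij
    have h2 := nz i k hik
    have h3 := hq i
    have : q i * (‖a i - a j‖ ^ 3 * ‖a i - a k‖ ^ 3) ≠ 0 := by positivity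
    rw [zero_pow two_ne_zero, sub_zero]
    positivity
  fin_cases i
  · refine ⟨_, hasFDerivAt_charge (q 0) (q 1) (q 2) (a 0) (a 1) (a 2), key 0 1 2 (by decide) (by decide)⟩
  · refine ⟨_, ((hasFDerivAt_charge (q 1) (q 0) (q 2) (a 1) (a 0) (a 2)).congr_of_eventuallyEq ?_),
      key 1 0 2 (by decide) (by decide)⟩
    filter_upwards with z
    unfold Y2
    push_cast
    ring
  · refine ⟨_, ((hasFDerivAt_charge (q 2) (q 0) (q 1) (a 2) (a 0) (a 1)).congr_of_eventuallyEq ?_),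
      key 2 0 1 (by decide) (by decide)⟩
    filter_upwards with z
    unfold Y2
    push_cast
    ring

/-! ### consequences of the far estimates -/

section far

variable (q : Fin 3 → ℝ) (a : Fin 3 → ℂ) (A : ℝ) (hA : ∀ j, ‖a j‖ ≤ A) (hT : Tc a ≠ 0) (hq : ∀ j, q j ≠ 0)
  (z : ℂ) (hz : z ∈ eq2 q a)
  (h2 : 2 * A ≤ ‖z‖) (h1 : 0 < ‖z‖) (hR : 45 * A ^ 3 < |Tc a| * ‖z‖)

include hT hq hz in
theorem mu_ne_zero : (∑ j, q j / ‖z - a j‖ ^ 3) ≠ 0 := by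
  intro h
  have hw := weights_eq a z (fun j => q j / ‖z - a j‖ ^ 3) hz.2 0
  rw [h, zero_mul] at hw
  rcases mul_eq_zero.mp hw with h' | h'
  · exact hT h'
  · have hn : ‖z - a 0‖ ≠ 0 := norm_ne_zero_iff.mpr (sub_ne_zero.mpr (hz.1 0))
    have := hq 0
    exact absurd h' (by positivity)

include hA hT hq hz h2 h1 hR in
theorem far_J_neg : J2 q a z < 0 := by
  have hw := weights_eq a z (fun j => q j / ‖z - a j‖ ^ 3) hz.2
  have hmu := mu_ne_zero q a hT hq z hz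
  have hM := far_M a A hA z h2 h1 hR
  set μ : ℝ := ∑ j, q j / ‖z - a j‖ ^ 3 with hμ
  set M : ℂ := ∑ j, ((q j / ‖z - a j‖ ^ 3 : ℝ) : ℂ) * ((a j - z) / conj (a j - z)) with hMdef
  have hTM : (Tc a : ℂ) * M = (μ : ℂ) * ∑ j, ((Xc a z j : ℝ) : ℂ) * ((a j - z) / conj (a j - z)) := by
    rw [hMdef, Finset.mul_sum, Finset.mul_sum]
    refine Finset.sum_congr rfl fun j _ => ?_
    rw [← mul_assoc, ← mul_assoc, ← Complex.ofReal_mul, ← Complex.ofReal_mul]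
    rw [hw j]
  have hn := congrArg norm hTM
  rw [norm_mul, norm_mul, Complex.norm_real, Complex.norm_real, Real.norm_eq_abs, Real.norm_eq_abs] at hn
  have hT0 : 0 < |Tc a| := abs_pos.mpr hT
  have hmu0 : 0 < |μ| := abs_pos.mpr hmu
  have h3 : |Tc a| * |μ| < |Tc a| * (3 * ‖M‖) := by
    calc |Tc a| * |μ| = |μ| * |Tc a| := by ring
      _ < |μ| * (3 * ‖∑ j, ((Xc a z j : ℝ) : ℂ) * ((a j - z) / conj (a j - z))‖) :=
          mul_lt_mul_of_pos_left hM hmu0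
      _ = 3 * (|Tc a| * ‖M‖) := by rw [hn]; ring
      _ = |Tc a| * (3 * ‖M‖) := by ring
  have h4 : |μ| < 3 * ‖M‖ := lt_of_mul_lt_mul_left h3 hT0.le
  unfold J2
  rw [← hμ, ← hMdef]
  have h5 : |μ| ^ 2 < (3 * ‖M‖) ^ 2 := pow_lt_pow_left₀ h4 hmu0.le (by norm_num)
  rw [sq_abs] at h5
  nlinarith

include hA hT hq hz h2 h1 hR in
theorem far_bdd : (∑ j, q j) ≠ 0 ∧ ‖z‖ ≤ 21 * A * (∑ j, |q j|) / |∑ j, q j| := by
  have hA0 : 0 ≤ A := (norm_nonneg _).trans (hA 0)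
  have hw := weights_eq a z (fun j => q j / ‖z - a j‖ ^ 3) hz.2
  have hmu := mu_ne_zero q a hT hq z hz
  set μ : ℝ := ∑ j, q j / ‖z - a j‖ ^ 3 with hμ
  set S : ℝ := ∑ j, Xc a z j * ‖a j - z‖ ^ 3 with hS
  have hT0 : 0 < |Tc a| := abs_pos.mpr hT
  have hq' : ∀ j, Tc a * q j = μ * (Xc a z j * ‖a j - z‖ ^ 3) := by
    intro j
    have hn : ‖z - a j‖ ≠ 0 := norm_ne_zero_iff.mpr (sub_ne_zero.mpr (hz.1 j))
    have := hw j
    rw [norm_sub_rev (a j) z, ← mul_assoc, ← this]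
    field_simp
  have hQ : Tc a * (∑ j, q j) = μ * S := by
    rw [Finset.mul_sum, hS, Finset.mul_sum]
    exact Finset.sum_congr rfl fun j _ => hq' j
  have hc := far_cube a A hA z h2 h1
  have hz3 : 0 < ‖z‖ ^ 2 := by positivity
  have hc' : |S + 2 * Tc a * ‖z‖ ^ 3| ≤ 3 / 5 * (|Tc a| * ‖z‖ ^ 3) := by
    refine hc.trans ?_
    have := mul_le_mul_of_nonneg_right hR.le hz3.le
    nlinarith
  have hT3 : |2 * Tc a * ‖z‖ ^ 3| = 2 * (|Tc a| * ‖z‖ ^ 3) := by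
    rw [abs_mul, abs_mul, abs_of_pos (by positivity : (0:ℝ) < ‖z‖ ^ 3)]
    norm_num
    ring
  have hTz : 0 < |Tc a| * ‖z‖ ^ 3 := by positivity
  have hS1 : |S| ≤ 13 / 5 * (|Tc a| * ‖z‖ ^ 3) := by
    have : |S| ≤ |S + 2 * Tc a * ‖z‖ ^ 3| + |2 * Tc a * ‖z‖ ^ 3| := by
      have := abs_sub (S + 2 * Tc a * ‖z‖ ^ 3) (2 * Tc a * ‖z‖ ^ 3)
      simpa using this
    rw [hT3] at this
    linarith
  have hS0 : S ≠ 0 := by
    intro h0
    rw [h0, zero_add, hT3] at hc'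
    linarith
  have hQ0 : (∑ j, q j) ≠ 0 := by
    intro h
    rw [h, mul_zero] at hQ
    rcases mul_eq_zero.mp hQ.symm with h' | h'
    · exact hmu h'
    · exact hS0 h'
  refine ⟨hQ0, ?_⟩
  set Q : ℝ := ∑ j, q j with hQdef
  have hQpos : 0 < |Q| := abs_pos.mpr hQ0
  have hX : ∀ j, |Xc a z j| * |Q| ≤ 21 * |Tc a| * |q j| := by
    intro j
    have h3 : q j * S = Q * (Xc a z j * ‖a j - z‖ ^ 3) := by
      have e : Tc a * (q j * S) = Tc a * (Q * (Xc a z j * ‖a j - z‖ ^ 3)) := by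
        calc Tc a * (q j * S) = (Tc a * q j) * S := by ring
          _ = μ * (Xc a z j * ‖a j - z‖ ^ 3) * S := by rw [hq' j]
          _ = (μ * S) * (Xc a z j * ‖a j - z‖ ^ 3) := by ring
          _ = (Tc a * Q) * (Xc a z j * ‖a j - z‖ ^ 3) := by rw [← hQ]
          _ = _ := by ring
      exact mul_left_cancel₀ hT e
    have h4 := congrArg abs h3
    rw [abs_mul, abs_mul, abs_mul, abs_of_nonneg (by positivity : (0:ℝ) ≤ ‖a j - z‖ ^ 3)] at h4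
    have hr := (far_r a A hA z h2 h1 j).1
    have hr3 : (‖z‖ / 2) ^ 3 ≤ ‖a j - z‖ ^ 3 := pow_le_pow_left₀ (by positivity) hr 3
    have h5 : |Q| * (|Xc a z j| * (‖z‖ / 2) ^ 3) ≤ |q j| * (13 / 5 * (|Tc a| * ‖z‖ ^ 3)) := by
      calc |Q| * (|Xc a z j| * (‖z‖ / 2) ^ 3) ≤ |Q| * (|Xc a z j| * ‖a j - z‖ ^ 3) := by gcongr
        _ = |q j| * |S| := h4.symm
        _ ≤ _ := by gcongr
    have hz3' : 0 < ‖z‖ ^ 3 := by positivity
    have h6 : (|Xc a z j| * |Q|) * ‖z‖ ^ 3 ≤ (104 / 5 * |Tc a| * |q j|) * ‖z‖ ^ 3 := by nlinarith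
    have h7 := le_of_mul_le_mul_right h6 hz3'
    have : 0 ≤ |Tc a| * |q j| := by positivity
    nlinarith
  have hz4 : |Tc a| * ‖z‖ ≤ A * ∑ j, |Xc a z j| := by
    have h := congrArg norm (sum_Xc_mul a z)
    rw [norm_mul, Complex.norm_real, Real.norm_eq_abs] at h
    rw [← h]
    refine (norm_sum_le _ _).trans ?_
    rw [Finset.mul_sum]
    refine Finset.sum_le_sum fun j _ => ?_
    rw [norm_mul, Complex.norm_real, Real.norm_eq_abs, mul_comm]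
    exact mul_le_mul_of_nonneg_right (hA j) (abs_nonneg _)
  rw [le_div_iff₀ hQpos]
  have h8 : (∑ j, |Xc a z j|) * |Q| ≤ 21 * |Tc a| * ∑ j, |q j| := by
    rw [Finset.sum_mul, Finset.mul_sum]
    exact Finset.sum_le_sum fun j _ => hX j
  have h9 : |Tc a| * (‖z‖ * |Q|) ≤ |Tc a| * (21 * A * ∑ j, |q j|) := by
    calc |Tc a| * (‖z‖ * |Q|) = (|Tc a| * ‖z‖) * |Q| := by ring
      _ ≤ (A * ∑ j, |Xc a z j|) * |Q| := by gcongr
      _ = A * ((∑ j, |Xc a z j|) * |Q|) := by ring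
      _ ≤ A * (21 * |Tc a| * ∑ j, |q j|) := by gcongr
      _ = _ := by ring
  exact le_of_mul_le_mul_left h9 hT0

end far

/-- a radius beyond which the far estimates hold -/
theorem exists_far_radius (a : Fin 3 → ℂ) (hT : Tc a ≠ 0) :
    ∃ A R : ℝ, 0 < R ∧ (∀ j, ‖a j‖ ≤ A) ∧ A ≤ R ∧ ∀ z : ℂ, R < ‖z‖ →
      2 * A ≤ ‖z‖ ∧ 0 < ‖z‖ ∧ 45 * A ^ 3 < |Tc a| * ‖z‖ := by
  set A : ℝ := ‖a 0‖ + ‖a 1‖ + ‖a 2‖ with hA
  have hT0 : 0 < |Tc a| := abs_pos.mpr hT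
  have hA0 : 0 ≤ A := by positivity
  refine ⟨A, 2 * A + 1 + 45 * A ^ 3 / |Tc a|, by positivity, ?_, ?_, ?_⟩
  · intro j
    fin_cases j <;> simp [hA] <;> linarith [norm_nonneg (a 0), norm_nonneg (a 1), norm_nonneg (a 2)]
  · have : 0 ≤ 45 * A ^ 3 / |Tc a| := by positivity
    linarith
  · intro z hz
    have h0 : 0 ≤ 45 * A ^ 3 / |Tc a| := by positivity
    refine ⟨by linarith, by linarith, ?_⟩
    have : 45 * A ^ 3 / |Tc a| < ‖z‖ := by linarith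
    rw [div_lt_iff₀ hT0] at this
    linarith

/-- the zero set of the regularised field is bounded -/
theorem zeros_bdd (q : Fin 3 → ℝ) (a : Fin 3 → ℂ) (hT : Tc a ≠ 0) (hq : ∀ j, q j ≠ 0) :
    ∃ R : ℝ, 0 < R ∧ ∀ z, Y2 q a z = 0 → ‖z‖ ≤ R := by
  obtain ⟨A, R, hR0, hA, hAR, hfar⟩ := exists_far_radius a hT
  have hnn : 0 ≤ 21 * A * (∑ j, |q j|) / |∑ j, q j| := by
    have : 0 ≤ A := (norm_nonneg _).trans (hA 0)
    positivity
  refine ⟨R + 21 * A * (∑ j, |q j|) / |∑ j, q j|, by positivity, ?_⟩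
  intro z hz
  rcases (Y2_zero_iff q a z).mp hz with h | ⟨j, rfl⟩
  · by_cases hlt : R < ‖z‖
    · obtain ⟨h2, h1, h3⟩ := hfar z hlt
      have := (far_bdd q a A hA hT hq z h h2 h1 h3).2
      linarith
    · push Not at hlt
      linarith
  · have := hA j
    linarith

theorem finite_of_nondeg {f : ℂ → ℂ} {K : Set ℂ} (hf : Continuous f) (hK : IsCompact K)
    (h : ∀ x ∈ K, f x = 0 → ∃ A : ℂ →L[ℝ] ℂ, HasFDerivAt f A x ∧ A.det ≠ 0) :
    (K ∩ f ⁻¹' {0}).Finite := by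
  have hZ : IsCompact (K ∩ f ⁻¹' {0}) := hK.inter_right (isClosed_singleton.preimage hf)
  have hloc : ∀ x ∈ K ∩ f ⁻¹' {0}, {z | z ≠ x → f z ≠ 0} ∈ 𝓝 x := by
    intro x hx
    obtain ⟨B, hB, hdet⟩ := h x hx.1 hx.2
    have hA : ∃ C, AntilipschitzWith C B := ⟨_, (equivOfDet B hdet).antilipschitz⟩
    have := hB.eventually_ne (c := 0) hA
    rw [eventually_nhdsWithin_iff] at this
    exact this
  obtain ⟨t, ht, hcov⟩ := hZ.elim_nhds_subcover _ hloc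
  refine t.finite_toSet.subset (fun z hz => ?_)
  obtain ⟨x, hx, hzx⟩ := mem_iUnion₂.1 (hcov hz)
  by_contra hne
  have : z ≠ x := fun h => hne (h ▸ hx)
  exact hzx this hz.2

end Pool.Agent.MX
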