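import Mathlib
import Pool.Agent.Lib_helper34.MX.PlanarZeros

set_option autoImplicit false

open scoped RealInnerProductSpace ComplexConjugate Topology
open Set Metric Filter

namespace Pool.Agent.MX

open Pool.Agent.Deg47

theorem Y2_scale (q : Fin 3 → ℝ) (a : Fin 3 → ℂ) (l : ℝ) (hl : 0 ≤ l) (z : ℂ) :
    Y2 q (fun j => (l : ℂ) * a j) ((l : ℂ) * z) = (l : ℂ) ^ 7 * Y2 q a z := by
  have h : ∀ j, ‖(l : ℂ) * z - (l : ℂ) * a j‖ = l * ‖z - a j‖ := by
    intro j
    rw [← mul_sub, norm_mul, Complex.norm_real, Real.norm_eq_abs, abs_of_nonneg hl]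
  unfold Y2
  simp only [h]
  push_cast
  ring

theorem Y2_jointly_continuous (q : Fin 3 → ℝ) (a : Fin 3 → ℂ) :
    Continuous (fun p : ℝ × ℂ => Y2 q (fun j => ((1 - p.1 : ℝ) : ℂ) * a j) p.2) := by
  unfold Y2
  fun_prop

theorem Y2_zero_pos (q : Fin 3 → ℝ) (z : ℂ) :
    Y2 q (fun _ => 0) z = ((-(q 0 + q 1 + q 2) * ‖z‖ ^ 6 : ℝ) : ℂ) * z := by
  unfold Y2
  simp only [sub_zero, zero_sub]
  push_cast
  ring

/-- total degree when the total charge is nonzero -/
theorem deg_univ_eq_one (q : Fin 3 → ℝ) (a : Fin 3 → ℂ) (hT : Tc a ≠ 0) (hq : ∀ j, q j ≠ 0)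
    (hQ : q 0 + q 1 + q 2 ≠ 0) : deg (Y2 q a) univ = 1 := by
  obtain ⟨R, hR0, hR⟩ := zeros_bdd q a hT hq
  set H : ℝ → ℂ → ℂ := fun t z => Y2 q (fun j => ((1 - t : ℝ) : ℂ) * a j) z with hH
  have h0 : H 0 = Y2 q a := by
    funext z
    simp [hH]
  have h1 : H 1 = fun z => ((-(q 0 + q 1 + q 2) * ‖z‖ ^ 6 : ℝ) : ℂ) * z := by
    funext z
    rw [← Y2_zero_pos]
    simp [hH]
  have hd : deg (H 0) univ = deg (H 1) univ := by
    refine deg_homotopy H isOpen_univ (Y2_jointly_continuous q a).continuousOn (isCompact_closedBall (0 : ℂ) R)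
      (subset_univ _) ?_
    intro t ht z _ hz
    rw [mem_closedBall_zero_iff]
    rcases eq_or_lt_of_le ht.2 with rfl | hlt
    · rw [h1] at hz
      have : z = 0 := by
        by_contra hne
        have hn : ‖z‖ ≠ 0 := norm_ne_zero_iff.mpr hne
        rcases mul_eq_zero.mp hz with h' | h'
        · have h'' : -(q 0 + q 1 + q 2) * ‖z‖ ^ 6 = 0 := by exact_mod_cast h'
          rcases mul_eq_zero.mp h'' with h3 | h3
          · exact hQ (neg_eq_zero.mp h3)
          · exact hn (pow_eq_zero_iff (by norm_num) |>.mp h3)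
        · exact hne h'
      rw [this, norm_zero]
      exact hR0.le
    · set l : ℝ := 1 - t with hl
      have hl0 : 0 < l := by linarith
      have hlc : (l : ℂ) ≠ 0 := by exact_mod_cast hl0.ne'
      have hzz : z = (l : ℂ) * (z / (l : ℂ)) := by field_simp
      have h2 : (l : ℂ) ^ 7 * Y2 q a (z / (l : ℂ)) = 0 := by
        rw [← Y2_scale q a l hl0.le, ← hzz]
        exact hz
      have h3 : Y2 q a (z / (l : ℂ)) = 0 := by
        rcases mul_eq_zero.mp h2 with h' | h'
        · exact absurd h' (pow_ne_zero _ hlc)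
        · exact h'
      have h4 := hR _ h3
      rw [norm_div, Complex.norm_real, Real.norm_eq_abs, abs_of_pos hl0, div_le_iff₀ hl0] at h4
      have : l ≤ 1 := by linarith [ht.1]
      nlinarith
  rw [← h0, hd, h1]
  -- homotopy to the linear map
  set G : ℝ → ℂ → ℂ := fun s z => ((-(q 0 + q 1 + q 2) * ((1 - s) * ‖z‖ ^ 6 + s) : ℝ) : ℂ) * z with hG
  have g0 : G 0 = fun z => ((-(q 0 + q 1 + q 2) * ‖z‖ ^ 6 : ℝ) : ℂ) * z := by
    funext z; simp [hG]
  have g1 : G 1 = fun z => (Lab ((-(q 0 + q 1 + q 2) : ℝ) : ℂ) 0) (z - 0) := by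
    funext z; simp [hG, Lab_apply]
  have hd2 : deg (G 0) univ = deg (G 1) univ := by
    refine deg_homotopy G isOpen_univ ?_ (isCompact_closedBall (0 : ℂ) 1) (subset_univ _) ?_
    · apply Continuous.continuousOn
      simp only [hG]
      fun_prop
    · intro s hs z _ hz
      rw [mem_closedBall_zero_iff]
      have : z = 0 := by
        by_contra hne
        have hn : 0 < ‖z‖ := norm_pos_iff.mpr hne
        rcases mul_eq_zero.mp hz with h' | h'
        · have h'' : -(q 0 + q 1 + q 2) * ((1 - s) * ‖z‖ ^ 6 + s) = 0 := by exact_mod_cast h'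
          rcases mul_eq_zero.mp h'' with h3 | h3
          · exact hQ (neg_eq_zero.mp h3)
          · have h6 : 0 < ‖z‖ ^ 6 := by positivity
            have hs0 := hs.1
            have hs1 := hs.2
            rcases eq_or_lt_of_le hs0 with rfl | hs0'
            · simp at h3
              exact hne h3
            · have : 0 ≤ (1 - s) * ‖z‖ ^ 6 := mul_nonneg (by linarith) h6.le
              linarith
        · exact hne h'
      rw [this, norm_zero]
      norm_num
  rw [← g0, hd2, g1]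
  have hdet : 0 < (Lab ((-(q 0 + q 1 + q 2) : ℝ) : ℂ) 0).det := by
    rw [Lab_det, Complex.norm_real, norm_zero, Real.norm_eq_abs, sq_abs, zero_pow two_ne_zero, sub_zero]
    have := neg_ne_zero.mpr hQ
    positivity
  rw [deg_affine _ hdet.ne' isOpen_univ (mem_univ _), sign_pos hdet]
  rfl

/-- counting from a lower bound of the degree -/
theorem count_of_deg (q : Fin 3 → ℝ) (a : Fin 3 → ℂ) (hT : Tc a ≠ 0) (hq : ∀ j, q j ≠ 0)
    (ha : Function.Injective a)
    (hnd : ∀ z ∈ eq2 q a, J2 q a z ≠ 0)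
    (hu : ∀ z ∈ eq2 q a, ∀ w ∈ eq2 q a, 0 < J2 q a z → 0 < J2 q a w → z = w)
    (hdeg : 1 ≤ deg (Y2 q a) univ) : (eq2 q a).encard ≤ 4 := by
  classical
  obtain ⟨R, hR0, hR⟩ := zeros_bdd q a hT hq
  have hder : ∀ z, Y2 q a z = 0 → ∃ A : ℂ →L[ℝ] ℂ, HasFDerivAt (Y2 q a) A z ∧ A.det ≠ 0 ∧
      (z ∈ eq2 q a → (SignType.sign A.det : ℤ) = if 0 < J2 q a z then 1 else -1) ∧
      (z ∉ eq2 q a → (SignType.sign A.det : ℤ) = 1) := by
    intro z hz
    by_cases hmem : z ∈ eq2 q a
    · obtain ⟨A, hA, hdet⟩ := hasFDerivAt_Y2 q a z hmem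
      have hW : 0 < (W2 a z) ^ 2 / 4 := by
        have := W2_pos a z hmem.1
        positivity
      have hJ := hnd z hmem
      refine ⟨A, hA, ?_, ?_, fun h => absurd hmem h⟩
      · rw [hdet]; exact mul_ne_zero hW.ne' hJ
      · intro _
        rw [hdet]
        split_ifs with hpos
        · rw [sign_pos (mul_pos hW hpos)]; rfl
        · have : J2 q a z < 0 := lt_of_le_of_ne (not_lt.mp hpos) hJ
          rw [sign_neg (mul_neg_of_pos_of_neg hW this)]; rfl
    · rcases (Y2_zero_iff q a z).mp hz with h | ⟨j, rfl⟩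
      · exact absurd h hmem
      · obtain ⟨A, hA, hdet⟩ := hasFDerivAt_Y2_charge q a hq ha j
        refine ⟨A, hA, hdet.ne', fun h => absurd h hmem, fun _ => ?_⟩
        rw [sign_pos hdet]; rfl
  have hfinK : (closedBall (0 : ℂ) R ∩ (Y2 q a) ⁻¹' {0}).Finite := by
    refine finite_of_nondeg (Y2_continuous q a) (isCompact_closedBall _ _) ?_
    intro z _ hz
    obtain ⟨A, h1, h2, _⟩ := hder z hz
    exact ⟨A, h1, h2⟩
  have hfin : ((Y2 q a) ⁻¹' {0}).Finite := by
    refine hfinK.subset ?_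
    intro z hz
    exact ⟨mem_closedBall_zero_iff.mpr (hR z hz), hz⟩
  choose! D hD using hder
  set Z := hfin.toFinset with hZ
  have hZmem : ∀ z, z ∈ Z ↔ Y2 q a z = 0 := by
    intro z
    rw [hZ, Set.Finite.mem_toFinset]
    exact Iff.rfl
  have hsum := deg_eq_sum_sign isOpen_univ (Y2_continuous q a).continuousOn Z (fun _ _ => mem_univ _)
    (fun z hz => (hZmem z).mp hz) (fun z _ hz => (hZmem z).mpr hz) D
    (fun z hz => (hD z ((hZmem z).mp hz)).1) (fun z hz => (hD z ((hZmem z).mp hz)).2.1)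
  -- split
  have hfe : (eq2 q a).Finite := by
    refine hfin.subset ?_
    intro z hz
    exact (Y2_zero_iff q a z).mpr (Or.inl hz)
  set E := hfe.toFinset with hE
  set C : Finset ℂ := Finset.univ.image a with hC
  have hCcard : C.card = 3 := by
    rw [hC, Finset.card_image_of_injective _ ha]
    simp
  have hdisj : Disjoint E C := by
    rw [Finset.disjoint_left]
    intro z hz hc
    rw [hC, Finset.mem_image] at hc
    obtain ⟨j, _, rfl⟩ := hc
    rw [hE, Set.Finite.mem_toFinset] at hz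
    exact hz.1 j rfl
  have hZeq : Z = E ∪ C := by
    ext z
    rw [hZmem, Y2_zero_iff, Finset.mem_union, hE, Set.Finite.mem_toFinset, hC, Finset.mem_image]
    constructor
    · rintro (h | ⟨j, rfl⟩)
      · exact Or.inl h
      · exact Or.inr ⟨j, Finset.mem_univ _, rfl⟩
    · rintro (h | ⟨j, _, rfl⟩)
      · exact Or.inl h
      · exact Or.inr ⟨j, rfl⟩
  rw [hZeq, Finset.sum_union hdisj] at hsum
  have hsC : ∑ z ∈ C, (SignType.sign (D z).det : ℤ) = 3 := by
    have : ∀ z ∈ C, (SignType.sign (D z).det : ℤ) = 1 := by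
      intro z hz
      rw [hC, Finset.mem_image] at hz
      obtain ⟨j, _, rfl⟩ := hz
      refine (hD (a j) (Y2_charge q a j)).2.2.2 ?_
      intro h
      exact h.1 j rfl
    rw [Finset.sum_congr rfl this]
    simp [hCcard]
  set Pz := E.filter (fun z => 0 < J2 q a z) with hPz
  set Nz := E.filter (fun z => ¬ 0 < J2 q a z) with hNz
  have hPcard : Pz.card ≤ 1 := by
    rw [Finset.card_le_one]
    intro z hz w hw
    rw [hPz, Finset.mem_filter, hE, Set.Finite.mem_toFinset] at hz hw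
    exact hu z hz.1 w hw.1 hz.2 hw.2
  have hsE : ∑ z ∈ E, (SignType.sign (D z).det : ℤ) = (Pz.card : ℤ) - Nz.card := by
    have : ∀ z ∈ E, (SignType.sign (D z).det : ℤ) = if 0 < J2 q a z then 1 else -1 := by
      intro z hz
      rw [hE, Set.Finite.mem_toFinset] at hz
      exact (hD z ((Y2_zero_iff q a z).mpr (Or.inl hz))).2.2.1 hz
    rw [Finset.sum_congr rfl this, Finset.sum_ite, ← hPz, ← hNz, Finset.sum_const,
      Finset.sum_const]
    simp only [nsmul_eq_mul, mul_one, mul_neg]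
    ring
  have hcard : E.card = Pz.card + Nz.card := by
    rw [hPz, hNz]
    exact (Finset.card_filter_add_card_filter_not _).symm
  rw [hsE, hsC] at hsum
  have h4 : E.card ≤ 4 := by
    have : (Nz.card : ℤ) ≤ Pz.card + 2 := by
      rw [hsum] at hdeg; linarith
    omega
  have : (eq2 q a).encard = E.card := by
    rw [hE, ← hfe.encard_eq_coe_toFinset_card]
  rw [this]
  exact_mod_cast h4

/-- a lower bound for the total degree when the total charge vanishes -/
theorem one_le_deg (q : Fin 3 → ℝ) (a : Fin 3 → ℂ) (hT : Tc a ≠ 0) (hq : ∀ j, q j ≠ 0) :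
    1 ≤ deg (Y2 q a) univ := by
  classical
  by_cases hQ : q 0 + q 1 + q 2 = 0
  swap
  · rw [deg_univ_eq_one q a hT hq hQ]
  obtain ⟨A, R0, hR00, hA, hAR, hfar⟩ := exists_far_radius a hT
  -- far zeros do not exist for q
  have hcharge : ∀ j, ‖a j‖ ≤ R0 := fun j => (hA j).trans hAR
  have hz0 : ∀ z, Y2 q a z = 0 → ‖z‖ ≤ R0 := by
    intro z hz
    rcases (Y2_zero_iff q a z).mp hz with h | ⟨j, rfl⟩
    · by_contra hlt
      push Not at hlt
      obtain ⟨h2, h1, h3⟩ := hfar z hlt
      have := (far_bdd q a A hA hT hq z h h2 h1 h3).1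
      rw [Fin.sum_univ_three] at this
      exact this hQ
    · exact hcharge j
  set P : ℝ → Fin 3 → ℝ := fun s => ![q 0 + s, q 1, q 2] with hP
  have hYs : ∀ s z, Y2 (P s) a z = Y2 q a z + ((s * (‖z - a 1‖ ^ 3 * ‖z - a 2‖ ^ 3) : ℝ) : ℂ) * (a 0 - z) := by
    intro s z
    unfold Y2
    simp only [hP, Matrix.cons_val_zero, Matrix.cons_val_one, Matrix.cons_val]
    push_cast
    ring
  -- annulus
  set K : Set ℂ := closedBall 0 (R0 + 3) \ ball 0 (R0 + 1) with hK
  have hKc : IsCompact K := (isCompact_closedBall _ _).diff isOpen_ball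
  obtain ⟨m, hm, hmb⟩ := exists_lower_bound hKc (Y2_continuous q a).continuousOn (by
    intro z hz h0
    have h1 := hz0 z h0
    have h2 := hz.2
    rw [mem_ball_zero_iff, not_lt] at h2
    linarith)
  have hcont : Continuous (fun z : ℂ => ‖(((‖z - a 1‖ ^ 3 * ‖z - a 2‖ ^ 3) : ℝ) : ℂ) * (a 0 - z)‖) := by
    fun_prop
  obtain ⟨M, hMb⟩ := hKc.bddAbove_image hcont.continuousOn
  have hM : ∀ z ∈ K, ‖(((‖z - a 1‖ ^ 3 * ‖z - a 2‖ ^ 3) : ℝ) : ℂ) * (a 0 - z)‖ ≤ |M| + 1 := by
    intro z hz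
    have := hMb ⟨z, hz, rfl⟩
    have := le_abs_self M
    linarith
  -- small parameter
  obtain ⟨s, hs0, hsm, hsq⟩ : ∃ s : ℝ, 0 < s ∧ s * (|M| + 1) < m ∧ s < |q 0| := by
    have hM0 : 0 < |M| + 1 := by positivity
    have hq0 : 0 < |q 0| := abs_pos.mpr (hq 0)
    refine ⟨min (m / (|M| + 1)) |q 0| / 2, by positivity, ?_, ?_⟩
    · have : min (m / (|M| + 1)) |q 0| / 2 < m / (|M| + 1) := by
        have h1 : min (m / (|M| + 1)) |q 0| ≤ m / (|M| + 1) := min_le_left _ _
        have h2 : 0 < m / (|M| + 1) := by positivity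
        have h3 : 0 < min (m / (|M| + 1)) |q 0| := by positivity
        linarith
      rwa [lt_div_iff₀ hM0] at this
    · have h1 : min (m / (|M| + 1)) |q 0| ≤ |q 0| := min_le_right _ _
      have h3 : 0 < min (m / (|M| + 1)) |q 0| := by positivity
      linarith
  have hnz : ∀ t ∈ Icc (0 : ℝ) 1, ∀ z ∈ K, Y2 (P (t * s)) a z ≠ 0 := by
    intro t ht z hz h0
    rw [hYs] at h0
    have e1 : Y2 q a z = -(((t * s * (‖z - a 1‖ ^ 3 * ‖z - a 2‖ ^ 3) : ℝ) : ℂ) * (a 0 - z)) := by
      rw [← sub_eq_zero]; rw [← h0]; ring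
    have e2 : ‖Y2 q a z‖ ≤ (t * s) * (|M| + 1) := by
      rw [e1, norm_neg]
      have : ((t * s * (‖z - a 1‖ ^ 3 * ‖z - a 2‖ ^ 3) : ℝ) : ℂ) * (a 0 - z)
        = ((t * s : ℝ) : ℂ) * ((((‖z - a 1‖ ^ 3 * ‖z - a 2‖ ^ 3) : ℝ) : ℂ) * (a 0 - z)) := by
        push_cast; ring
      rw [this, norm_mul, Complex.norm_real, Real.norm_eq_abs, abs_of_nonneg (mul_nonneg ht.1 hs0.le)]
      exact mul_le_mul_of_nonneg_left (hM z hz) (mul_nonneg ht.1 hs0.le)
    have e3 := hmb z hz
    have e4 : (t * s) * (|M| + 1) ≤ s * (|M| + 1) := by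
      have : t * s ≤ s := by nlinarith [ht.2]
      have hM0 : 0 ≤ |M| + 1 := by positivity
      exact mul_le_mul_of_nonneg_right this hM0
    linarith
  -- degree on the ball
  set U : Set ℂ := ball 0 (R0 + 3) with hU
  have hexc : deg (Y2 q a) U = deg (Y2 q a) univ := by
    refine deg_excision (Adm.of_subset_compact isOpen_univ (Y2_continuous q a).continuousOn
      (isCompact_closedBall (0 : ℂ) R0) (subset_univ _) ?_) isOpen_ball (subset_univ _) ?_
    · intro z _ hz
      exact mem_closedBall_zero_iff.mpr (hz0 z hz)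
    · intro z _ hz
      rw [hU, mem_ball_zero_iff]
      have := hz0 z hz
      linarith
  have hhom : deg (Y2 q a) U = deg (Y2 (P s) a) U := by
    set H : ℝ → ℂ → ℂ := fun t z => Y2 (P (t * s)) a z with hH
    have h0 : H 0 = Y2 q a := by
      funext z
      simp only [hH, zero_mul, hYs]
      simp
    have h1 : H 1 = Y2 (P s) a := by
      funext z
      simp only [hH, one_mul]
    rw [← h0, ← h1]
    refine deg_homotopy H isOpen_ball ?_ (isCompact_closedBall (0 : ℂ) (R0 + 1)) ?_ ?_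
    · apply Continuous.continuousOn
      simp only [hH, hYs]
      unfold Y2
      fun_prop
    · intro z hz
      rw [mem_closedBall_zero_iff] at hz
      rw [mem_ball_zero_iff]
      linarith
    · intro t ht z hz h0'
      by_contra hc
      rw [mem_closedBall_zero_iff, not_le] at hc
      rw [mem_ball_zero_iff] at hz
      refine hnz t ht z ⟨?_, ?_⟩ h0'
      · rw [mem_closedBall_zero_iff]; exact hz.le
      · rw [mem_ball_zero_iff, not_lt]; exact hc.le
  -- perturbed charges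
  have hPq : ∀ j, P s j ≠ 0 := by
    intro j
    fin_cases j
    · simp only [hP, Fin.zero_eta, Matrix.cons_val_zero]
      intro h
      have h1 : q 0 = -s := by linarith
      rw [h1, abs_neg, abs_of_pos hs0] at hsq
      exact lt_irrefl _ hsq
    · simpa [hP] using hq 1
    · simpa [hP] using hq 2
  have hPQ : P s 0 + P s 1 + P s 2 ≠ 0 := by
    simp only [hP, Matrix.cons_val_zero, Matrix.cons_val_one, Matrix.cons_val]
    intro h
    linarith
  have hdeg1 := deg_univ_eq_one (P s) a hT hPq hPQ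
  obtain ⟨R2, hR20, hR2⟩ := zeros_bdd (P s) a hT hPq
  have hadm : Adm (Y2 (P s) a) univ := Adm.of_subset_compact isOpen_univ (Y2_continuous _ a).continuousOn
      (isCompact_closedBall (0 : ℂ) R2) (subset_univ _) (fun z _ hz => mem_closedBall_zero_iff.mpr (hR2 z hz))
  set U1 : Set ℂ := ball 0 (R0 + 2) with hU1
  set U2 : Set ℂ := {z | R0 + 2 < ‖z‖} with hU2
  have hU2o : IsOpen U2 := isOpen_lt continuous_const continuous_norm
  have hdisj : Disjoint U1 U2 := by
    rw [Set.disjoint_left]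
    intro z h1 h2
    rw [hU1, mem_ball_zero_iff] at h1
    exact lt_asymm h1 h2
  have hzs : ∀ z, Y2 (P s) a z = 0 → z ∈ U1 ∪ U2 := by
    intro z hz
    rcases lt_trichotomy ‖z‖ (R0 + 2) with h | h | h
    · left; rw [hU1, mem_ball_zero_iff]; exact h
    · exfalso
      refine hnz 1 (by simp) z ⟨?_, ?_⟩ (by rwa [one_mul])
      · rw [mem_closedBall_zero_iff]; linarith
      · rw [mem_ball_zero_iff, not_lt]; linarith
    · right; exact h
  have hsplit : deg (Y2 (P s) a) (U1 ∪ U2) = deg (Y2 (P s) a) univ :=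
    deg_excision hadm (isOpen_ball.union hU2o) (subset_univ _) (fun z _ hz => hzs z hz)
  have hadm' : Adm (Y2 (P s) a) (U1 ∪ U2) := hadm.mono (isOpen_ball.union hU2o) (subset_univ _)
    (fun z _ hz => hzs z hz)
  have hunion := deg_union isOpen_ball hU2o hdisj hadm'
  have hU1eq : deg (Y2 (P s) a) U1 = deg (Y2 (P s) a) U := by
    have hadmU : Adm (Y2 (P s) a) U := by
      refine Adm.of_subset_compact isOpen_ball (Y2_continuous _ a).continuousOn
        (isCompact_closedBall (0 : ℂ) (R0 + 1)) ?_ ?_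
      · intro z hz
        rw [mem_closedBall_zero_iff] at hz
        rw [mem_ball_zero_iff]
        linarith
      · intro z hz h0'
        by_contra hc
        rw [mem_closedBall_zero_iff, not_le] at hc
        rw [hU, mem_ball_zero_iff] at hz
        refine hnz 1 (by simp) z ⟨?_, ?_⟩ (by rwa [one_mul])
        · rw [mem_closedBall_zero_iff]; exact hz.le
        · rw [mem_ball_zero_iff, not_lt]; exact hc.le
    refine deg_excision hadmU isOpen_ball (ball_subset_ball (by linarith)) ?_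
    intro z hz h0'
    rw [hU, mem_ball_zero_iff] at hz
    rw [hU1, mem_ball_zero_iff]
    by_contra hc
    push Not at hc
    refine hnz 1 (by simp) z ⟨?_, ?_⟩ (by rwa [one_mul])
    · rw [mem_closedBall_zero_iff]; exact hz.le
    · rw [mem_ball_zero_iff, not_lt]; linarith
  have hU2deg : deg (Y2 (P s) a) U2 ≤ 0 := by
    have hder : ∀ z ∈ U2, Y2 (P s) a z = 0 → ∃ B : ℂ →L[ℝ] ℂ, HasFDerivAt (Y2 (P s) a) B z ∧ B.det < 0 := by
      intro z hz h0'
      rcases (Y2_zero_iff (P s) a z).mp h0' with h | ⟨j, rfl⟩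
      · have hlt : R0 < ‖z‖ := by
          have : R0 + 2 < ‖z‖ := hz
          linarith
        obtain ⟨h2, h1, h3⟩ := hfar z hlt
        have hJ := far_J_neg (P s) a A hA hT hPq z h h2 h1 h3
        obtain ⟨B, hB, hdet⟩ := hasFDerivAt_Y2 (P s) a z h
        refine ⟨B, hB, ?_⟩
        rw [hdet]
        have := W2_pos a z h.1
        exact mul_neg_of_pos_of_neg (by positivity) hJ
      · have h1 := hcharge j
        have h2 : R0 + 2 < ‖a j‖ := hz
        linarith
    have hfinK : ((closedBall (0 : ℂ) R2 \ ball 0 (R0 + 2)) ∩ (Y2 (P s) a) ⁻¹' {0}).Finite := by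
      refine finite_of_nondeg (Y2_continuous _ a) ((isCompact_closedBall _ _).diff isOpen_ball) ?_
      intro z hz h0'
      have hzU : z ∈ U2 := by
        rcases hzs z h0' with h | h
        · exact absurd h hz.2
        · exact h
      obtain ⟨B, hB, hdet⟩ := hder z hzU h0'
      exact ⟨B, hB, hdet.ne⟩
    have hfin : (U2 ∩ (Y2 (P s) a) ⁻¹' {0}).Finite := by
      refine hfinK.subset ?_
      rintro z ⟨hz1, hz2⟩
      refine ⟨⟨mem_closedBall_zero_iff.mpr (hR2 z hz2), ?_⟩, hz2⟩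
      rw [mem_ball_zero_iff, not_lt]
      exact (le_of_lt hz1)
    choose! D hD using hder
    have hsum := deg_eq_sum_sign hU2o (Y2_continuous (P s) a).continuousOn hfin.toFinset
      (fun z hz => ((Set.Finite.mem_toFinset _).mp hz).1) (fun z hz => ((Set.Finite.mem_toFinset _).mp hz).2)
      (fun z hzU hz => (Set.Finite.mem_toFinset _).mpr ⟨hzU, hz⟩) D
      (fun z hz => (hD z ((Set.Finite.mem_toFinset _).mp hz).1 ((Set.Finite.mem_toFinset _).mp hz).2).1)
      (fun z hz => (hD z ((Set.Finite.mem_toFinset _).mp hz).1 ((Set.Finite.mem_toFinset _).mp hz).2).2.ne)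
    rw [hsum]
    refine Finset.sum_nonpos fun z hz => ?_
    rw [sign_neg (hD z ((Set.Finite.mem_toFinset _).mp hz).1 ((Set.Finite.mem_toFinset _).mp hz).2).2]
    decide
  rw [← hexc, hhom, ← hU1eq]
  have : deg (Y2 (P s) a) U1 + deg (Y2 (P s) a) U2 = 1 := by
    rw [← hunion, hsplit, hdeg1]
  linarith

theorem planar_count' (q : Fin 3 → ℝ) (a : Fin 3 → ℂ) (hT : Tc a ≠ 0) (hq : ∀ j, q j ≠ 0)
    (ha : Function.Injective a)
    (hnd : ∀ z ∈ eq2 q a, J2 q a z ≠ 0)
    (hu : ∀ z ∈ eq2 q a, ∀ w ∈ eq2 q a, 0 < J2 q a z → 0 < J2 q a w → z = w) :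
    (eq2 q a).encard ≤ 4 :=
  count_of_deg q a hT hq ha hnd hu (one_le_deg q a hT hq)

end Pool.Agent.MX
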