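import Pool.Agent.Lib_helper17.MX.Defs
import Pool.Agent.Lib_helper34.MX.PlanarDeg

set_option autoImplicit false

open scoped ComplexConjugate

namespace Pool.Agent.MX

theorem Tc_eq_T2 (a : Fin 3 → ℂ) : Tc a = T2 a := by
  unfold Tc T2 cr
  simp [Complex.mul_im]
  ring

theorem F2_eq_PGrad (q : Fin 3 → ℝ) (a : Fin 3 → ℂ) (z : ℂ) : F2 q a z = PGrad q a z := by
  unfold F2 PGrad
  exact Finset.sum_congr rfl (fun j _ => by rw [norm_sub_rev])

theorem mem_eq2_iff (q : Fin 3 → ℝ) (a : Fin 3 → ℂ) (z : ℂ) : z ∈ eq2 q a ↔ PEq q a z := by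
  unfold eq2 PEq
  rw [Set.mem_setOf_eq, F2_eq_PGrad]

theorem J2_eq (q : Fin 3 → ℝ) (a : Fin 3 → ℂ) (z : ℂ) (hz : ∀ j, z ≠ a j) :
    J2 q a z = PT q a z ^ 2 - 9 * ‖PM q a z‖ ^ 2 := by
  have h1 : (∑ j, q j / ‖z - a j‖ ^ 3) = PT q a z := by
    unfold PT
    exact Finset.sum_congr rfl (fun j _ => by rw [norm_sub_rev])
  have h2 : (∑ j, ((q j / ‖z - a j‖ ^ 3 : ℝ) : ℂ) * ((a j - z) / conj (a j - z))) = PM q a z := by
    unfold PM
    refine Finset.sum_congr rfl (fun j _ => ?_)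
    have hp : a j - z ≠ 0 := sub_ne_zero.mpr (hz j).symm
    have hc : conj (a j - z) ≠ 0 := (map_ne_zero _).mpr hp
    have hn : ((‖a j - z‖ : ℝ) : ℂ) ≠ 0 := by
      exact_mod_cast norm_ne_zero_iff.mpr hp
    have hsq : (a j - z) * conj (a j - z) = ((‖a j - z‖ : ℝ) : ℂ) ^ 2 := by
      rw [Complex.mul_conj, Complex.normSq_eq_norm_sq]
      push_cast; ring
    rw [norm_sub_rev]
    push_cast
    rw [div_mul_div_comm, div_mul_eq_mul_div, div_eq_div_iff (mul_ne_zero (pow_ne_zero _ hn) hc)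
      (pow_ne_zero _ hn)]
    have : (q j : ℂ) * (a j - z) ^ 2 * (((‖a j - z‖ : ℝ) : ℂ) ^ 3 * conj (a j - z))
      = (q j : ℂ) * (a j - z) * ((‖a j - z‖ : ℝ) : ℂ) ^ 3 * ((a j - z) * conj (a j - z)) := by ring
    rw [this, hsq]
    ring
  unfold J2
  rw [h1, h2]

/-- block COUNT -/
theorem planar_count : PlanarCount := by
  intro q a hT hq hnd hu
  have hT' : Tc a ≠ 0 := by rw [Tc_eq_T2]; exact hT
  have ha : Function.Injective a := by
    intro i j hij
    by_contra hne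
    apply hT'
    have key : ∀ i j : Fin 3, i ≠ j → a i = a j → Tc a = 0 := by
      intro i j hne h
      unfold Tc cr
      fin_cases i <;> fin_cases j <;> simp at hne h ⊢ <;> simp [h] <;> ring
    exact key i j hne hij
  have := planar_count' q a hT' hq ha
    (by
      intro z hz
      have hz' := (mem_eq2_iff q a z).mp hz
      rw [J2_eq q a z hz.1]
      exact sub_ne_zero.mpr (hnd z hz'))
    (by
      intro z hz w hw h1 h2
      rw [J2_eq q a z hz.1] at h1
      rw [J2_eq q a w hw.1] at h2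
      exact hu z w ((mem_eq2_iff q a z).mp hz) ((mem_eq2_iff q a w).mp hw) (by linarith) (by linarith))
  have he : {z | PEq q a z} = eq2 q a := by
    ext z
    exact (mem_eq2_iff q a z).symm
  rw [he]
  exact this

end Pool.Agent.MX
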